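import Mathlib

/-!
# Rado's problem on disjoint squares: definitions
-/

open MeasureTheory Set
open scoped ENNReal NNReal

namespace Pool.Agent.Helper15.Rado

/-- a closed axis-parallel square, with lower left corner `(x, y)` and side `s > 0` -/
structure Sq where
  x : ℝ
  y : ℝ
  s : ℝ
  pos : 0 < s

/-- the set of points of a square -/
def Sq.set (Q : Sq) : Set (ℝ × ℝ) := Icc Q.x (Q.x + Q.s) ×ˢ Icc Q.y (Q.y + Q.s)

/-- distinct members have disjoint interiors -/
def NonOv (G : Finset Sq) : Prop :=
  ∀ P ∈ G, ∀ Q ∈ G, P ≠ Q → Disjoint (interior P.set) (interior Q.set)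

/-- the Lebesgue measure of the union of the members -/
noncomputable def area (F : Finset Sq) : ℝ := (volume (⋃ Q ∈ F, Q.set)).toReal

/-- Rado's constant for squares in the plane -/
noncomputable def c2 : ℝ :=
  sSup {c : ℝ | 0 ≤ c ∧ ∀ F : Finset Sq, ∃ G ⊆ F, NonOv G ∧ c * area F ≤ area G}

end Pool.Agent.Helper15.Rado
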