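import Pool.Agent.Helper15.Rado.Local2
import Pool.Agent.Helper15.Rado.Defs

/-!
# Rado's problem on disjoint squares: optimal families and charging
-/

open MeasureTheory Set
open scoped ENNReal NNReal

namespace Pool.Agent.Helper15.Rado

/-- the interiors meet -/
def ov (K Q : Sq) : Prop :=
  (K.x < Q.x + Q.s ∧ Q.x < K.x + K.s) ∧ (K.y < Q.y + Q.s ∧ Q.y < K.y + K.s)

noncomputable instance (K Q : Sq) : Decidable (ov K Q) := Classical.dec _
noncomputable instance (Q : Sq) (z : ℝ × ℝ) : Decidable (z ∈ Q.set) := Classical.dec _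
noncomputable instance : DecidableEq Sq := Classical.decEq _

theorem ov_self (K : Sq) : ov K K := by
  have := K.pos
  refine ⟨⟨?_, ?_⟩, ⟨?_, ?_⟩⟩ <;> linarith

theorem ov_symm {K Q : Sq} (h : ov K Q) : ov Q K := ⟨⟨h.1.2, h.1.1⟩, ⟨h.2.2, h.2.1⟩⟩

theorem interior_set (Q : Sq) :
    interior Q.set = Ioo Q.x (Q.x + Q.s) ×ˢ Ioo Q.y (Q.y + Q.s) := by
  rw [Sq.set, interior_prod_eq, interior_Icc, interior_Icc]

theorem disjoint_of_not_ov {K Q : Sq} (h : ¬ ov K Q) : Disjoint (interior K.set) (interior Q.set) := by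
  rw [interior_set, interior_set, Set.disjoint_left]
  rintro ⟨a, b⟩ ⟨h1, h2⟩ ⟨h3, h4⟩
  simp only [mem_Ioo] at h1 h2 h3 h4
  apply h
  refine ⟨⟨?_, ?_⟩, ⟨?_, ?_⟩⟩ <;> linarith

/-- cube of the side -/
noncomputable def cub (Q : Sq) : ℝ≥0 := ⟨Q.s ^ 3, by have := Q.pos; positivity⟩

theorem cub_coe (Q : Sq) : (cub Q : ℝ) = Q.s ^ 3 := rfl

theorem cub_pos (Q : Sq) : 0 < cub Q := by
  have := Q.pos
  rw [← NNReal.coe_pos, cub_coe]; positivity

/-- conflict weight -/
noncomputable def cw (G : Finset Sq) (K : Sq) : ℝ≥0 := ∑ Q ∈ G.filter (fun Q => ov K Q), cub Q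

/-- pairwise non overlapping, and optimal for the sum of the cubes of the sides -/
structure Opt (F G : Finset Sq) : Prop where
  sub : G ⊆ F
  no : ∀ P ∈ G, ∀ Q ∈ G, P ≠ Q → ¬ ov P Q
  best : ∀ H ⊆ F, (∀ P ∈ H, ∀ Q ∈ H, P ≠ Q → ¬ ov P Q) → ∑ Q ∈ H, cub Q ≤ ∑ Q ∈ G, cub Q

theorem exists_opt (F : Finset Sq) : ∃ G, Opt F G := by
  have hne : (F.powerset.filter fun G => ∀ P ∈ G, ∀ Q ∈ G, P ≠ Q → ¬ ov P Q).Nonempty :=
    ⟨∅, by simp⟩
  obtain ⟨G, hG, hmax⟩ := Finset.exists_max_image _ (fun G => ∑ Q ∈ G, cub Q) hne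
  rw [Finset.mem_filter, Finset.mem_powerset] at hG
  refine ⟨G, hG.1, hG.2, fun H hH hno => hmax H ?_⟩
  rw [Finset.mem_filter, Finset.mem_powerset]
  exact ⟨hH, hno⟩

theorem Opt.swap {F G : Finset Sq} (h : Opt F G) {T : Finset Sq} (hT : T ⊆ F)
    (hno : ∀ P ∈ T, ∀ Q ∈ T, P ≠ Q → ¬ ov P Q) :
    ∑ K ∈ T, cub K ≤ ∑ Q ∈ G.filter (fun Q => ∃ K ∈ T, ov K Q), cub Q := by
  have hdisj : Disjoint (G.filter (fun Q => ¬ ∃ K ∈ T, ov K Q)) T := by
    rw [Finset.disjoint_left]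
    intro Q hQ hQT
    rw [Finset.mem_filter] at hQ
    exact hQ.2 ⟨Q, hQT, ov_self Q⟩
  have h1 := h.best (G.filter (fun Q => ¬ ∃ K ∈ T, ov K Q) ∪ T)
    (Finset.union_subset ((Finset.filter_subset _ _).trans h.sub) hT) (by
      intro P hP Q hQ hPQ hov
      rw [Finset.mem_union, Finset.mem_filter] at hP hQ
      rcases hP with hP | hP <;> rcases hQ with hQ | hQ
      · exact h.no P hP.1 Q hQ.1 hPQ hov
      · exact hP.2 ⟨Q, hQ, ov_symm hov⟩
      · exact hQ.2 ⟨P, hP, hov⟩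
      · exact hno P hP Q hQ hPQ hov)
  rw [Finset.sum_union hdisj] at h1
  have h2 := Finset.sum_filter_add_sum_filter_not G (fun Q => ∃ K ∈ T, ov K Q) cub
  rw [← h2, add_comm] at h1
  exact le_of_add_le_add_right h1

theorem Opt.single {F G : Finset Sq} (h : Opt F G) {K : Sq} (hK : K ∈ F) : cub K ≤ cw G K := by
  have := h.swap (T := {K}) (by simpa using hK) (by simp)
  simpa [cw] using this

theorem Opt.pair {F G : Finset Sq} (h : Opt F G) {K L Q : Sq} (hK : K ∈ F) (hL : L ∈ F)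
    (hKL : ¬ ov K L) (hQ : Q ∈ G) (h1 : ov K Q) (h2 : ov L Q) :
    cub K + cub L + cub Q ≤ cw G K + cw G L := by
  have hne : K ≠ L := by rintro rfl; exact hKL (ov_self K)
  have hs := h.swap (T := {K, L}) (by
    intro P hP; simp only [Finset.mem_insert, Finset.mem_singleton] at hP
    rcases hP with rfl | rfl <;> assumption) (by
    intro P hP R hR hPR hov
    simp only [Finset.mem_insert, Finset.mem_singleton] at hP hR
    rcases hP with rfl | rfl <;> rcases hR with rfl | rfl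
    · exact hPR rfl
    · exact hKL hov
    · exact hKL (ov_symm hov)
    · exact hPR rfl)
  rw [Finset.sum_pair hne] at hs
  have e1 : G.filter (fun Q => ∃ P ∈ ({K, L} : Finset Sq), ov P Q) =
      G.filter (fun Q => ov K Q) ∪ G.filter (fun Q => ov L Q) := by
    ext P; simp only [Finset.mem_filter, Finset.mem_union, Finset.mem_insert,
      Finset.mem_singleton, exists_eq_or_imp, exists_eq_left]
    tauto
  rw [e1] at hs
  have h3 := Finset.sum_union_inter (s₁ := G.filter (fun Q => ov K Q))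
    (s₂ := G.filter (fun Q => ov L Q)) (f := cub)
  have h4 : cub Q ≤ ∑ P ∈ G.filter (fun Q => ov K Q) ∩ G.filter (fun Q => ov L Q), cub P :=
    Finset.single_le_sum (f := cub) (fun _ _ => zero_le) (by
      simp only [Finset.mem_inter, Finset.mem_filter]; exact ⟨⟨hQ, h1⟩, hQ, h2⟩)
  calc cub K + cub L + cub Q ≤ _ := add_le_add hs h4
    _ = cw G K + cw G L := h3

/-- the local configuration around a member of the optimal family -/
noncomputable def cfg {F G : Finset Sq} (h : Opt F G) {Q : Sq} (hQ : Q ∈ G) : Cfg Sq where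
  N := F.filter fun K => ov K Q
  e := fun K => ![(K.x + K.s - Q.x - Q.s) / Q.s, (K.y + K.s - Q.y - Q.s) / Q.s,
    (Q.x - K.x) / Q.s, (Q.y - K.y) / Q.s]
  s := fun K => K.s / Q.s
  M := fun K => cw G K / cub Q
  hs := fun K _ => div_pos K.pos Q.pos
  hsum := by
    intro K _ k
    have := Q.pos
    fin_cases k <;> simp <;> field_simp <;> ring
  hlt := by
    intro K hK k
    have := Q.pos
    rw [Finset.mem_filter] at hK
    obtain ⟨_, ⟨h1, h2⟩, ⟨h3, h4⟩⟩ := hK
    fin_cases k <;> simp <;> rw [lt_div_iff₀ this] <;> linarith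
  hM1 := by
    intro K hK
    rw [Finset.mem_filter] at hK
    rw [one_le_div (cub_pos Q)]
    exact Finset.single_le_sum (f := cub) (fun _ _ => zero_le) (by
      rw [Finset.mem_filter]; exact ⟨hQ, hK.2⟩)
  hM3 := by
    intro K hK
    rw [Finset.mem_filter] at hK
    have h1 := h.single hK.1
    have h2 : (cub K : ℝ) ≤ cw G K := by exact_mod_cast h1
    rw [div_pow, NNReal.coe_div, cub_coe]
    have := Q.pos
    rw [cub_coe] at h2
    gcongr
  hpair := by
    intro K hK L hL hk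
    rw [Finset.mem_filter] at hK hL
    have hpos := Q.pos
    have hno : ¬ ov K L := by
      rintro ⟨⟨h1, h2⟩, ⟨h3, h4⟩⟩
      obtain ⟨k, hk⟩ := hk
      fin_cases k <;> simp at hk <;> rw [← add_div, div_le_iff₀ hpos] at hk <;> linarith
    have h1 := h.pair hK.1 hL.1 hno hQ hK.2 hL.2
    have h2 : (cub K : ℝ) + cub L + cub Q ≤ cw G K + cw G L := by exact_mod_cast h1
    rw [NNReal.coe_div, NNReal.coe_div, ← add_div, div_pow, div_pow, ← add_div, cub_coe,
      div_add_one (by positivity)]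
    simp only [cub_coe] at h2
    gcongr

/-- weight function of a member of the optimal family -/
noncomputable def WQ (F G : Finset Sq) (Q : Sq) (z : ℝ × ℝ) : ℝ≥0 :=
  ((F.filter fun K => ov K Q).sup fun K => if z ∈ K.set then cw G K else 0)⁻¹

theorem measurable_WQ (F G : Finset Sq) (Q : Sq) : Measurable (WQ F G Q) := by
  apply Measurable.inv
  apply measurable_finset_sup
  intro K _
  exact Measurable.ite (measurableSet_Icc.prod measurableSet_Icc) measurable_const measurable_const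

theorem WQ_eq {F G : Finset Sq} (h : Opt F G) {Q : Sq} (hQ : Q ∈ G) (p : ℝ × ℝ) :
    WQ F G Q (Q.x + Q.s * p.1, Q.y + Q.s * p.2) = (cub Q)⁻¹ * (cfg h hQ).W p := by
  unfold WQ Cfg.W
  rw [← mul_inv, NNReal.mul_finset_sup]
  congr 1
  apply Finset.sup_congr rfl
  intro K _
  have hpos := Q.pos
  have e : ((Q.x + Q.s * p.1, Q.y + Q.s * p.2) ∈ K.set) ↔ (cfg h hQ).mem K p := by
    simp only [Sq.set, mem_prod, mem_Icc, Cfg.mem, cfg, Matrix.cons_val]
    constructor
    · rintro ⟨⟨h1, h2⟩, ⟨h3, h4⟩⟩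
      refine ⟨⟨?_, ?_⟩, ⟨?_, ?_⟩⟩
      · rw [← neg_div, div_le_iff₀ hpos]; linarith
      · rw [one_add_div hpos.ne', le_div_iff₀ hpos]; linarith
      · rw [← neg_div, div_le_iff₀ hpos]; linarith
      · rw [one_add_div hpos.ne', le_div_iff₀ hpos]; linarith
    · rintro ⟨⟨h1, h2⟩, ⟨h3, h4⟩⟩
      rw [← neg_div, div_le_iff₀ hpos] at h1 h3
      rw [one_add_div hpos.ne', le_div_iff₀ hpos] at h2 h4
      refine ⟨⟨?_, ?_⟩, ⟨?_, ?_⟩⟩ <;> linarith
  by_cases hm : (Q.x + Q.s * p.1, Q.y + Q.s * p.2) ∈ K.set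
  · rw [if_pos hm, if_pos (e.1 hm)]
    simp only [cfg]
    rw [mul_div_cancel₀]
    exact (cub_pos Q).ne'
  · rw [if_neg hm, if_neg (fun h' => hm (e.2 h')), mul_zero]

theorem scale1 {a s : ℝ} (hs : 0 < s) (g : ℝ → ℝ≥0∞) :
    ∫⁻ x, g x = ENNReal.ofReal s * ∫⁻ p, g (a + s * p) := by
  have him : (fun t : ℝ => a + s * t) '' univ = univ := by
    rw [image_univ, range_eq_univ]
    intro y
    exact ⟨(y - a) / s, by field_simp; ring⟩
  have := lintegral_image_eq_lintegral_abs_deriv_mul (s := univ) (f := fun t => a + s * t)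
    (f' := fun _ => s) MeasurableSet.univ
    (fun x _ => by
      have h := (((hasDerivAt_id x).const_mul s).const_add a).hasDerivWithinAt (s := univ)
      simpa using h)
    (fun x _ y _ h => by simpa [hs.ne'] using h) g
  rw [him] at this
  rw [setLIntegral_univ, setLIntegral_univ] at this
  rw [this, abs_of_pos hs, lintegral_const_mul']
  exact ENNReal.ofReal_ne_top

theorem scale2 {a b s : ℝ} (hs : 0 < s) {f : ℝ × ℝ → ℝ≥0∞} (hf : Measurable f) :
    ∫⁻ z, f z = ENNReal.ofReal s * ENNReal.ofReal s * ∫⁻ p : ℝ × ℝ, f (a + s * p.1, b + s * p.2) := by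
  have hm : Measurable (fun p : ℝ × ℝ => (a + s * p.1, b + s * p.2)) := by fun_prop
  have hc : Measurable (fun p : ℝ × ℝ => f (a + s * p.1, b + s * p.2)) := hf.comp hm
  rw [Measure.volume_eq_prod, lintegral_prod _ hf.aemeasurable,
    lintegral_prod _ hc.aemeasurable, scale1 (a := a) hs (fun x => ∫⁻ y, f (x, y)), mul_assoc]
  congr 1
  rw [← lintegral_const_mul' _ _ ENNReal.ofReal_ne_top]
  congr 1
  ext p
  exact scale1 hs (fun y => f (a + s * p, y))

theorem lintegral_WQ {F G : Finset Sq} (h : Opt F G) {Q : Sq} (hQ : Q ∈ G) :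
    (cub Q : ℝ≥0∞) * ∫⁻ z, (WQ F G Q z : ℝ≥0∞) ≤ 7 * (ENNReal.ofReal Q.s * ENNReal.ofReal Q.s) := by
  have hm : Measurable (fun z => (WQ F G Q z : ℝ≥0∞)) := (measurable_WQ F G Q).coe_nnreal_ennreal
  rw [scale2 (a := Q.x) (b := Q.y) Q.pos hm]
  have e : ∀ p : ℝ × ℝ, (WQ F G Q (Q.x + Q.s * p.1, Q.y + Q.s * p.2) : ℝ≥0∞) =
      ((cub Q)⁻¹ : ℝ≥0) * ((cfg h hQ).W p : ℝ≥0∞) := by
    intro p
    rw [WQ_eq h hQ]; push_cast; rfl
  simp only [e]
  rw [lintegral_const_mul' _ _ ENNReal.coe_ne_top]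
  have hI := (cfg h hQ).integral_le
  have hc : (cub Q : ℝ≥0∞) * ((cub Q)⁻¹ : ℝ≥0) = 1 := by
    rw [← ENNReal.coe_mul, mul_inv_cancel₀ (cub_pos Q).ne', ENNReal.coe_one]
  calc (cub Q : ℝ≥0∞) * (ENNReal.ofReal Q.s * ENNReal.ofReal Q.s *
        (((cub Q)⁻¹ : ℝ≥0) * ∫⁻ p, ((cfg h hQ).W p : ℝ≥0∞)))
      = ((cub Q : ℝ≥0∞) * ((cub Q)⁻¹ : ℝ≥0)) * ((∫⁻ p, ((cfg h hQ).W p : ℝ≥0∞)) *
        (ENNReal.ofReal Q.s * ENNReal.ofReal Q.s)) := by ring
    _ ≤ 1 * (7 * (ENNReal.ofReal Q.s * ENNReal.ofReal Q.s)) := by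
        rw [hc]; gcongr
    _ = _ := one_mul _

/-- every covered point is charged completely -/
theorem charge {F G : Finset Sq} (h : Opt F G) {z : ℝ × ℝ} (hz : z ∈ ⋃ Q ∈ F, Q.set) :
    1 ≤ ∑ Q ∈ G, cub Q * WQ F G Q z := by
  have hne : (F.filter fun K => z ∈ K.set).Nonempty := by
    simp only [mem_iUnion] at hz
    obtain ⟨K, hK, hzK⟩ := hz
    exact ⟨K, by rw [Finset.mem_filter]; exact ⟨hK, hzK⟩⟩
  obtain ⟨K, hK, hmax⟩ := Finset.exists_max_image _ (fun K => cw G K) hne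
  rw [Finset.mem_filter] at hK
  have hKpos : 0 < cw G K := (cub_pos K).trans_le (h.single hK.1)
  have hW : ∀ Q ∈ G.filter (fun Q => ov K Q), (cw G K)⁻¹ ≤ WQ F G Q z := by
    intro Q hQ
    rw [Finset.mem_filter] at hQ
    unfold WQ
    apply inv_anti₀
    · calc 0 < cw G K := hKpos
        _ = if z ∈ K.set then cw G K else 0 := by rw [if_pos hK.2]
        _ ≤ _ := Finset.le_sup (f := fun K => if z ∈ K.set then cw G K else 0)
            (by rw [Finset.mem_filter]; exact ⟨hK.1, hQ.2⟩)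
    · apply Finset.sup_le
      intro L hL
      rw [Finset.mem_filter] at hL
      by_cases hzL : z ∈ L.set
      · rw [if_pos hzL]
        exact hmax L (by rw [Finset.mem_filter]; exact ⟨hL.1, hzL⟩)
      · rw [if_neg hzL]; exact zero_le
  calc (1:ℝ≥0) = cw G K * (cw G K)⁻¹ := (mul_inv_cancel₀ hKpos.ne').symm
    _ = ∑ Q ∈ G.filter (fun Q => ov K Q), cub Q * (cw G K)⁻¹ := by rw [cw, Finset.sum_mul]
    _ ≤ ∑ Q ∈ G.filter (fun Q => ov K Q), cub Q * WQ F G Q z :=
        Finset.sum_le_sum fun Q hQ => mul_le_mul_right (hW Q hQ) _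
    _ ≤ ∑ Q ∈ G, cub Q * WQ F G Q z :=
        Finset.sum_le_sum_of_subset_of_nonneg (Finset.filter_subset _ _) fun _ _ _ => zero_le

theorem measurableSet_union (F : Finset Sq) : MeasurableSet (⋃ Q ∈ F, Q.set) :=
  Finset.measurableSet_biUnion _ fun _ _ => measurableSet_Icc.prod measurableSet_Icc

theorem sum_le_volume {G : Finset Sq} (hno : ∀ P ∈ G, ∀ Q ∈ G, P ≠ Q → ¬ ov P Q) :
    ∑ Q ∈ G, ENNReal.ofReal Q.s * ENNReal.ofReal Q.s ≤ volume (⋃ Q ∈ G, Q.set) := by
  have h1 : volume (⋃ Q ∈ G, interior Q.set) = ∑ Q ∈ G, volume (interior Q.set) := by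
    apply measure_biUnion_finset
    · intro P hP Q hQ hPQ
      exact disjoint_of_not_ov (hno P hP Q hQ hPQ)
    · intro Q _
      exact isOpen_interior.measurableSet
  have h2 : ∀ Q : Sq, volume (interior Q.set) = ENNReal.ofReal Q.s * ENNReal.ofReal Q.s := by
    intro Q
    rw [interior_set, Measure.volume_eq_prod, Measure.prod_prod, Real.volume_Ioo, Real.volume_Ioo]
    simp
  simp only [h2] at h1
  rw [← h1]
  apply measure_mono
  exact iUnion₂_mono fun Q _ => interior_subset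

theorem main_volume {F G : Finset Sq} (h : Opt F G) :
    volume (⋃ Q ∈ F, Q.set) ≤ 7 * volume (⋃ Q ∈ G, Q.set) := by
  calc volume (⋃ Q ∈ F, Q.set) = ∫⁻ z, (⋃ Q ∈ F, Q.set).indicator (fun _ => 1) z := by
        rw [lintegral_indicator (measurableSet_union F)]; simp
    _ ≤ ∫⁻ z, ∑ Q ∈ G, (cub Q : ℝ≥0∞) * (WQ F G Q z : ℝ≥0∞) := by
        apply lintegral_mono
        intro z
        by_cases hz : z ∈ ⋃ Q ∈ F, Q.set
        · rw [indicator_of_mem hz]
          have := charge h hz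
          show (1:ℝ≥0∞) ≤ ∑ Q ∈ G, (cub Q : ℝ≥0∞) * (WQ F G Q z : ℝ≥0∞)
          exact_mod_cast this
        · rw [indicator_of_notMem hz]; exact zero_le
    _ = ∑ Q ∈ G, (cub Q : ℝ≥0∞) * ∫⁻ z, (WQ F G Q z : ℝ≥0∞) := by
        rw [lintegral_finsetSum]
        · congr 1; ext Q
          rw [lintegral_const_mul' _ _ ENNReal.coe_ne_top]
        · intro Q _
          exact (measurable_WQ F G Q).coe_nnreal_ennreal.const_mul _
    _ ≤ ∑ Q ∈ G, 7 * (ENNReal.ofReal Q.s * ENNReal.ofReal Q.s) :=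
        Finset.sum_le_sum fun Q hQ => lintegral_WQ h hQ
    _ = 7 * ∑ Q ∈ G, ENNReal.ofReal Q.s * ENNReal.ofReal Q.s := by rw [Finset.mul_sum]
    _ ≤ _ := by gcongr; exact sum_le_volume h.no

theorem volume_ne_top (F : Finset Sq) : volume (⋃ Q ∈ F, Q.set) ≠ ⊤ := by
  apply ne_of_lt
  calc volume (⋃ Q ∈ F, Q.set) ≤ ∑ Q ∈ F, volume Q.set := measure_biUnion_finset_le _ _
    _ < ⊤ := by
        apply ENNReal.sum_lt_top.2
        intro Q _
        rw [Sq.set, Measure.volume_eq_prod, Measure.prod_prod, Real.volume_Icc, Real.volume_Icc]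
        exact ENNReal.mul_lt_top ENNReal.ofReal_lt_top ENNReal.ofReal_lt_top

/-- the main theorem in direct form -/
theorem main (F : Finset Sq) : ∃ G ⊆ F, NonOv G ∧ 1 / 7 * area F ≤ area G := by
  obtain ⟨G, hG⟩ := exists_opt F
  refine ⟨G, hG.sub, fun P hP Q hQ hPQ => disjoint_of_not_ov (hG.no P hP Q hQ hPQ), ?_⟩
  have h1 := main_volume hG
  have h2 : area F ≤ 7 * area G := by
    unfold area
    have := ENNReal.toReal_mono (ENNReal.mul_ne_top (by norm_num) (volume_ne_top G)) h1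
    rw [ENNReal.toReal_mul] at this
    simpa using this
  linarith

theorem bddAbove_c2 :
    BddAbove {c : ℝ | 0 ≤ c ∧ ∀ F : Finset Sq, ∃ G ⊆ F, NonOv G ∧ c * area F ≤ area G} := by
  refine ⟨1, ?_⟩
  rintro c ⟨-, hc⟩
  obtain ⟨G, hG, -, h⟩ := hc {⟨0, 0, 1, one_pos⟩}
  have h1 : area {⟨0, 0, 1, one_pos⟩} = 1 := by
    unfold area
    rw [Finset.set_biUnion_singleton, Sq.set, Measure.volume_eq_prod, Measure.prod_prod]
    simp
  have h2 : area G ≤ area {⟨0, 0, 1, one_pos⟩} := by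
    unfold area
    apply ENNReal.toReal_mono (volume_ne_top _)
    apply measure_mono
    exact biUnion_subset_biUnion_left hG
  rw [h1] at h h2
  linarith

theorem c2_ge : 1 / 7 ≤ c2 := by
  apply le_csSup bddAbove_c2
  exact ⟨by norm_num, main⟩

end Pool.Agent.Helper15.Rado
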