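import Mathlib

/-!
# Rado's problem on disjoint squares: the real inequalities
-/

namespace Pool.Agent.Helper15.Rado

/-- a rational number slightly above `2^(2/3)/3` -/
noncomputable def kap : ℝ := 52914 / 100000

theorem lin_le {x : ℝ} (hx : 0 ≤ x) : x ≤ kap * (x ^ 3 + 1) := by
  unfold kap
  nlinarith [mul_nonneg (sq_nonneg (x - 7937/10000)) (by linarith : (0:ℝ) ≤ x + 2 * (7937/10000))]

theorem sq_le {x : ℝ} (hx : 0 ≤ x) : x ^ 2 ≤ kap * (x ^ 3 + 1) := by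
  unfold kap
  nlinarith [mul_nonneg (sq_nonneg (x - 100000/79371))
    (by linarith : (0:ℝ) ≤ 52914 / 100000 * x + 1/3)]

theorem sq_le_cube {x : ℝ} (hx : 0 ≤ x) : 3 * x ^ 2 ≤ 1 + 2 * x ^ 3 := by
  nlinarith [mul_nonneg (sq_nonneg (x - 1)) (by linarith : (0:ℝ) ≤ 2 * x + 1)]

/-- slack bound used for overlapping pairs -/
theorem slack_le {B σ X : ℝ} (hB : 0 ≤ B) (h1 : B ≤ σ) (hX : 1 ≤ X) (hX3 : σ ^ 3 ≤ X) :
    B / X ≤ 1 - 3/4 * min (σ - B) 1 := by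
  have hX0 : 0 < X := by linarith
  have hσ : 0 ≤ σ := hB.trans h1
  rw [div_le_iff₀ hX0]
  rcases le_total (σ - B) 1 with h | h
  · rw [min_eq_left h]
    set x := σ - B with hx
    have hx0 : 0 ≤ x := by simp [hx, h1]
    have hc : 0 ≤ 1 - 3/4 * x := by linarith
    have hBe : B = σ - x := by simp [hx]
    rcases le_total σ 1 with hs | hs
    · nlinarith
    · have h3 : (1 - 3/4 * x) * σ ^ 3 ≤ (1 - 3/4 * x) * X := mul_le_mul_of_nonneg_left hX3 hc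
      have e1 : σ ≤ σ ^ 3 := by nlinarith [mul_nonneg (by linarith : (0:ℝ) ≤ σ - 1) hσ, sq_nonneg σ]
      have e2 : σ - 1 ≤ σ ^ 3 / 4 := by nlinarith [sq_nonneg (σ - 1), sq_nonneg (σ - 2), mul_nonneg hσ (sq_nonneg (σ - 1))]
      -- linear in x
      have : σ - x ≤ (1 - 3/4 * x) * σ ^ 3 := by
        nlinarith [mul_nonneg hx0 (sub_nonneg.2 e2), mul_nonneg (sub_nonneg.2 h) (sub_nonneg.2 e1)]
      linarith
  · rw [min_eq_right h]
    rcases le_total σ 1 with hs | hs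
    · nlinarith
    · have e2 : σ - 1 ≤ σ ^ 3 / 4 := by nlinarith [sq_nonneg (σ - 1), sq_nonneg (σ - 2), mul_nonneg hσ (sq_nonneg (σ - 1))]
      nlinarith

theorem side_ineq {B B' σ σ' X Y : ℝ} (hB : 0 ≤ B) (hB' : 0 ≤ B') (h1 : B ≤ σ) (h1' : B' ≤ σ')
    (hX : 1 ≤ X) (hX3 : σ ^ 3 ≤ X) (hY : 1 ≤ Y) (hY3 : σ' ^ 3 ≤ Y)
    (hp : σ + σ' ≤ B + B' + 1 → σ ^ 3 + σ' ^ 3 + 1 ≤ X + Y) :
    B / X + B' / Y ≤ 3 * kap := by
  have hX0 : 0 < X := by linarith
  have hY0 : 0 < Y := by linarith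
  have hσ : 0 ≤ σ := hB.trans h1
  have hσ' : 0 ≤ σ' := hB'.trans h1'
  have hk : (0:ℝ) < kap := by unfold kap; norm_num
  rcases le_or_gt (σ + σ') (B + B' + 1) with hc | hc
  · have hs := hp hc
    have a1 : B / X ≤ kap * (σ ^ 3 + 1) / X := by
      gcongr; exact h1.trans (lin_le hσ)
    have a2 : B' / Y ≤ kap * (σ' ^ 3 + 1) / Y := by
      gcongr; exact h1'.trans (lin_le hσ')
    have key : (σ ^ 3 + 1) / X + (σ' ^ 3 + 1) / Y ≤ 3 := by
      rw [div_add_div _ _ hX0.ne' hY0.ne', div_le_iff₀ (mul_pos hX0 hY0)]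
      rcases le_total X Y with hxy | hxy
      · nlinarith [mul_nonneg (sub_nonneg.2 hX3) (sub_nonneg.2 hxy), mul_nonneg hX0.le (sub_nonneg.2 hs),
          mul_nonneg (sub_nonneg.2 hX) hY0.le]
      · nlinarith [mul_nonneg (sub_nonneg.2 hY3) (sub_nonneg.2 hxy), mul_nonneg hY0.le (sub_nonneg.2 hs),
          mul_nonneg (sub_nonneg.2 hY) hX0.le]
    calc B / X + B' / Y ≤ kap * (σ ^ 3 + 1) / X + kap * (σ' ^ 3 + 1) / Y := add_le_add a1 a2
      _ = kap * ((σ ^ 3 + 1) / X + (σ' ^ 3 + 1) / Y) := by ring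
      _ ≤ kap * 3 := by gcongr
      _ = 3 * kap := by ring
  · have s1 := slack_le hB h1 hX hX3
    have s2 := slack_le hB' h1' hY hY3
    have hm : 1 ≤ min (σ - B) 1 + min (σ' - B') 1 := by
      rcases le_total (σ - B) 1 with h | h <;> rcases le_total (σ' - B') 1 with h' | h' <;>
        simp only [min_eq_left, min_eq_right, h, h'] <;> linarith
    have : (5/4 : ℝ) ≤ 3 * kap := by unfold kap; norm_num
    linarith

end Pool.Agent.Helper15.Rado
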