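import Mathlib

/-!
# Rado's problem on disjoint squares: splitting plane integrals
-/

open MeasureTheory Set
open scoped ENNReal NNReal

namespace Pool.Agent.Helper15.Rado

theorem measurable_finset_sup {ι α : Type*} [MeasurableSpace α] (s : Finset ι) (f : ι → α → ℝ≥0)
    (hf : ∀ i ∈ s, Measurable (f i)) : Measurable (fun a => s.sup (fun i => f i a)) := by
  classical
  induction s using Finset.induction_on with
  | empty => simp
  | insert i s hi ih =>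
    simp only [Finset.sup_insert]
    exact (hf i (Finset.mem_insert_self _ _)).sup
      (ih fun j hj => hf j (Finset.mem_insert_of_mem hj))

/-- splitting the line at the unit interval -/
theorem line_split (g : ℝ → ℝ≥0∞) :
    ∫⁻ x, g x = (∫⁻ x in Icc 0 1, g x) +
      ((∫⁻ a in Ioi 0, g (1 + a)) + ∫⁻ a in Ioi 0, g (-a)) := by
  have h1 : ∫⁻ x, g x = (∫⁻ x in Icc (0:ℝ) 1, g x) + ∫⁻ x in (Icc (0:ℝ) 1)ᶜ, g x :=
    (lintegral_add_compl g measurableSet_Icc).symm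
  have h2 : (Icc (0:ℝ) 1)ᶜ = Ioi 1 ∪ Iio 0 := by
    ext x
    simp only [mem_compl_iff, mem_Icc, not_and_or, not_le, mem_union, mem_Ioi, mem_Iio]
    tauto
  have h3 : ∫⁻ x in Ioi (1:ℝ) ∪ Iio 0, g x = (∫⁻ x in Ioi (1:ℝ), g x) + ∫⁻ x in Iio 0, g x := by
    apply lintegral_union measurableSet_Iio
    rw [Set.disjoint_left]
    intro x hx hx'
    simp only [mem_Ioi, mem_Iio] at hx hx'
    linarith
  have h4 : ∫⁻ a in Ioi 0, g (1 + a) = ∫⁻ x in Ioi 1, g x := by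
    have := (measurePreserving_add_left volume (1:ℝ)).setLIntegral_comp_preimage_emb
      (measurableEmbedding_addLeft 1) g (Ioi 1)
    rw [← this]
    congr 2
    ext a; simp
  have h5 : ∫⁻ a in Ioi 0, g (-a) = ∫⁻ x in Iio 0, g x := by
    have := (Measure.measurePreserving_neg (volume : Measure ℝ)).setLIntegral_comp_preimage_emb
      (MeasurableEquiv.neg ℝ).measurableEmbedding g (Iio 0)
    rw [← this]
    congr 2
    ext a; simp
  rw [h1, h2, h3, h4, h5]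

theorem inner_subst {a : ℝ} (ha : 0 < a) (g : ℝ → ℝ≥0∞) :
    ∫⁻ b in Ioo 0 a, g b = ∫⁻ t in Ioo (0:ℝ) 1, ENNReal.ofReal a * g (t * a) := by
  have him : (fun t : ℝ => t * a) '' Ioo 0 1 = Ioo 0 a := by
    rw [Set.image_mul_right_Ioo _ _ ha]; simp
  have := lintegral_image_eq_lintegral_abs_deriv_mul (s := Ioo (0:ℝ) 1) (f := fun t => t * a)
    (f' := fun _ => a) measurableSet_Ioo
    (fun x _ => by simpa using (hasDerivAt_id x).hasDerivWithinAt.mul_const a)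
    (fun x _ y _ h => by simpa [ha.ne'] using h) g
  rw [him] at this
  rw [this]
  simp only [abs_of_pos ha]

theorem half_quad {F : ℝ × ℝ → ℝ≥0∞} (hF : Measurable F) :
    ∫⁻ a in Ioi (0:ℝ), ∫⁻ b in Ioo 0 a, F (a, b) =
      ∫⁻ t in Ioo (0:ℝ) 1, ∫⁻ r in Ioi (0:ℝ), ENNReal.ofReal r * F (r, t * r) := by
  have h1 : ∫⁻ a in Ioi (0:ℝ), ∫⁻ b in Ioo 0 a, F (a, b) =
      ∫⁻ a in Ioi (0:ℝ), ∫⁻ t in Ioo (0:ℝ) 1, ENNReal.ofReal a * F (a, t * a) := by
    apply setLIntegral_congr_fun measurableSet_Ioi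
    intro a ha
    exact inner_subst ha (fun b => F (a, b))
  rw [h1, lintegral_lintegral_swap]
  apply Measurable.aemeasurable
  apply Measurable.mul
  · exact ENNReal.measurable_ofReal.comp measurable_fst
  · exact hF.comp (measurable_fst.prodMk (measurable_snd.mul measurable_fst))

theorem quad_split {F : ℝ × ℝ → ℝ≥0∞} (hF : Measurable F) :
    ∫⁻ a in Ioi (0:ℝ), ∫⁻ b in Ioi (0:ℝ), F (a, b) =
      (∫⁻ t in Ioo (0:ℝ) 1, ∫⁻ r in Ioi (0:ℝ), ENNReal.ofReal r * F (r, t * r)) +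
      ∫⁻ t in Ioo (0:ℝ) 1, ∫⁻ r in Ioi (0:ℝ), ENNReal.ofReal r * F (t * r, r) := by
  have h1 : ∀ a ∈ Ioi (0:ℝ), ∫⁻ b in Ioi (0:ℝ), F (a, b) =
      (∫⁻ b in Ioo 0 a, F (a, b)) + ∫⁻ b in Ioi (0:ℝ), {b | a < b}.indicator (fun b => F (a, b)) b := by
    intro a ha
    have ha' : (0:ℝ) < a := ha
    have e1 : ∫⁻ b in Ioi (0:ℝ), {b | a < b}.indicator (fun b => F (a, b)) b =
        ∫⁻ b in Ioi a, F (a, b) := by
      rw [← lintegral_indicator measurableSet_Ioi, ← lintegral_indicator measurableSet_Ioi]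
      congr 1
      ext b
      by_cases hb : a < b
      · have : 0 < b := ha'.trans hb
        simp [indicator, hb, this]
      · simp [indicator, hb]
    rw [e1, ← Ioc_union_Ioi_eq_Ioi ha'.le, lintegral_union measurableSet_Ioi
      (by rw [Set.disjoint_left]; intro x hx hx'; exact absurd hx.2 (not_le.2 hx'))]
    congr 1
    exact setLIntegral_congr Ioo_ae_eq_Ioc.symm
  rw [setLIntegral_congr_fun measurableSet_Ioi h1]
  have hind : Measurable (fun p : ℝ × ℝ => {q : ℝ × ℝ | q.1 < q.2}.indicator F p) :=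
    hF.indicator (measurableSet_lt measurable_fst measurable_snd)
  have e2 : ∀ a b : ℝ, {b | a < b}.indicator (fun b => F (a, b)) b =
      {q : ℝ × ℝ | q.1 < q.2}.indicator F (a, b) := by
    intro a b; simp [indicator]
  rw [lintegral_add_right]
  · congr 1
    · exact half_quad hF
    · simp only [e2]
      rw [lintegral_lintegral_swap]
      · have h3 : ∀ b ∈ Ioi (0:ℝ), ∫⁻ a in Ioi (0:ℝ), {q : ℝ × ℝ | q.1 < q.2}.indicator F (a, b) =
            ∫⁻ a in Ioo 0 b, F (a, b) := by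
          intro b hb
          rw [← lintegral_indicator measurableSet_Ioi, ← lintegral_indicator measurableSet_Ioo]
          congr 1
          ext a
          by_cases h0 : 0 < a
          · by_cases hb : a < b <;> simp [indicator, h0, hb]
          · simp [indicator, h0]
        rw [setLIntegral_congr_fun measurableSet_Ioi h3]
        exact half_quad (F := fun p => F (p.2, p.1)) (hF.comp measurable_swap)
      · exact hind.aemeasurable
  · simp only [e2]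
    exact hind.lintegral_prod_right'

/-- the decomposition of a plane integral around the unit square -/
theorem plane_split {f : ℝ × ℝ → ℝ≥0∞} (hf : Measurable f) :
    ∫⁻ p, f p =
      (∫⁻ x in Icc (0:ℝ) 1, ∫⁻ y in Icc (0:ℝ) 1, f (x, y)) +
      (∫⁻ x in Icc (0:ℝ) 1, ((∫⁻ b in Ioi (0:ℝ), f (x, 1 + b)) + ∫⁻ b in Ioi (0:ℝ), f (x, -b))) +
      (∫⁻ y in Icc (0:ℝ) 1, ((∫⁻ a in Ioi (0:ℝ), f (1 + a, y)) + ∫⁻ a in Ioi (0:ℝ), f (-a, y))) +
      (((∫⁻ a in Ioi (0:ℝ), ∫⁻ b in Ioi (0:ℝ), f (1 + a, 1 + b)) +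
        (∫⁻ a in Ioi (0:ℝ), ∫⁻ b in Ioi (0:ℝ), f (1 + a, -b))) +
       ((∫⁻ a in Ioi (0:ℝ), ∫⁻ b in Ioi (0:ℝ), f (-a, 1 + b)) +
        (∫⁻ a in Ioi (0:ℝ), ∫⁻ b in Ioi (0:ℝ), f (-a, -b)))) := by
  have hfx : ∀ g : ℝ × ℝ → ℝ × ℝ, Measurable g → Measurable (fun p => f (g p)) :=
    fun g hg => hf.comp hg
  have m1 : Measurable (fun p : ℝ × ℝ => ((1:ℝ) + p.1, p.2)) := by fun_prop
  have m2 : Measurable (fun p : ℝ × ℝ => (-p.1, p.2)) := by fun_prop
  have s1 : Measurable (fun p : ℝ × ℝ => (p.1, (1:ℝ) + p.2)) := by fun_prop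
  have s2 : Measurable (fun p : ℝ × ℝ => (p.1, -p.2)) := by fun_prop
  have n1 : Measurable (fun p : ℝ × ℝ => ((1:ℝ) + p.1, (1:ℝ) + p.2)) := by fun_prop
  have n2 : Measurable (fun p : ℝ × ℝ => ((1:ℝ) + p.1, -p.2)) := by fun_prop
  have n3 : Measurable (fun p : ℝ × ℝ => (-p.1, (1:ℝ) + p.2)) := by fun_prop
  have n4 : Measurable (fun p : ℝ × ℝ => (-p.1, -p.2)) := by fun_prop
  rw [Measure.volume_eq_prod, lintegral_prod _ hf.aemeasurable, line_split (fun x => ∫⁻ y, f (x, y))]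
  have c1 : ∫⁻ x in Icc (0:ℝ) 1, ∫⁻ y, f (x, y) =
      (∫⁻ x in Icc (0:ℝ) 1, ∫⁻ y in Icc (0:ℝ) 1, f (x, y)) +
      (∫⁻ x in Icc (0:ℝ) 1, ((∫⁻ b in Ioi (0:ℝ), f (x, 1 + b)) + ∫⁻ b in Ioi (0:ℝ), f (x, -b))) := by
    rw [← lintegral_add_left]
    · congr 1; ext x; exact line_split (fun y => f (x, y))
    · exact hf.lintegral_prod_right'
  have c2 : ∫⁻ a in Ioi (0:ℝ), ∫⁻ y, f (1 + a, y) =
      (∫⁻ y in Icc (0:ℝ) 1, ∫⁻ a in Ioi (0:ℝ), f (1 + a, y)) +
      ((∫⁻ a in Ioi (0:ℝ), ∫⁻ b in Ioi (0:ℝ), f (1 + a, 1 + b)) +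
        (∫⁻ a in Ioi (0:ℝ), ∫⁻ b in Ioi (0:ℝ), f (1 + a, -b))) := by
    have e : ∫⁻ y in Icc (0:ℝ) 1, ∫⁻ a in Ioi (0:ℝ), f (1 + a, y) =
        ∫⁻ a in Ioi (0:ℝ), ∫⁻ y in Icc (0:ℝ) 1, f (1 + a, y) := by
      rw [lintegral_lintegral_swap]
      exact ((hfx _ m1).comp measurable_swap).aemeasurable
    rw [e, ← lintegral_add_left (f := fun a => ∫⁻ b in Ioi (0:ℝ), f (1 + a, 1 + b)),
      ← lintegral_add_left]
    · congr 1; ext a; exact line_split (fun y => f (1 + a, y))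
    · exact (hfx _ m1).lintegral_prod_right'
    · exact (hfx _ n1).lintegral_prod_right'
  have c3 : ∫⁻ a in Ioi (0:ℝ), ∫⁻ y, f (-a, y) =
      (∫⁻ y in Icc (0:ℝ) 1, ∫⁻ a in Ioi (0:ℝ), f (-a, y)) +
      ((∫⁻ a in Ioi (0:ℝ), ∫⁻ b in Ioi (0:ℝ), f (-a, 1 + b)) +
        (∫⁻ a in Ioi (0:ℝ), ∫⁻ b in Ioi (0:ℝ), f (-a, -b))) := by
    have e : ∫⁻ y in Icc (0:ℝ) 1, ∫⁻ a in Ioi (0:ℝ), f (-a, y) =
        ∫⁻ a in Ioi (0:ℝ), ∫⁻ y in Icc (0:ℝ) 1, f (-a, y) := by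
      rw [lintegral_lintegral_swap]
      exact ((hfx _ m2).comp measurable_swap).aemeasurable
    rw [e, ← lintegral_add_left (f := fun a => ∫⁻ b in Ioi (0:ℝ), f (-a, 1 + b)),
      ← lintegral_add_left]
    · congr 1; ext a; exact line_split (fun y => f (-a, y))
    · exact (hfx _ m2).lintegral_prod_right'
    · exact (hfx _ n3).lintegral_prod_right'
  rw [c1, c2, c3, lintegral_add_left (f := fun y => ∫⁻ a in Ioi (0:ℝ), f (1 + a, y))]
  · ring
  · exact ((hfx _ m1).comp measurable_swap).lintegral_prod_right'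

end Pool.Agent.Helper15.Rado
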