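import Pool.Agent.Helper15.Rado.Pin
import Pool.Agent.Helper15.Rado.Meas

/-!
# Rado's problem on disjoint squares: the local estimate around a unit square

The unit square is `[0,1]^2`.  A square meeting it is described by its four extents
`e 0, e 1, e 2, e 3` beyond the unit square to the right, up, left and down.
-/

open MeasureTheory Set
open scoped ENNReal NNReal

namespace Pool.Agent.Helper15.Rado

/-- a finite family of squares overlapping the unit square, with conflict weights `M` -/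
structure Cfg (ι : Type*) where
  N : Finset ι
  e : ι → Fin 4 → ℝ
  s : ι → ℝ
  M : ι → ℝ≥0
  hs : ∀ i ∈ N, 0 < s i
  hsum : ∀ i ∈ N, ∀ k, e i k + e i (k + 2) + 1 = s i
  hlt : ∀ i ∈ N, ∀ k, -1 < e i k
  hM1 : ∀ i ∈ N, 1 ≤ M i
  hM3 : ∀ i ∈ N, s i ^ 3 ≤ M i
  hpair : ∀ i ∈ N, ∀ j ∈ N, (∃ k, e i k + e j (k + 2) ≤ -1) →
    s i ^ 3 + s j ^ 3 + 1 ≤ M i + M j

/-- the outcome of a direction: a dummy or a square of the family -/
theorem ray_dichotomy {ι : Type*} (N : Finset ι) (act : ι → Prop) [DecidablePred act]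
    (g : ι → ℝ) (M : ι → ℝ≥0) (hM : ∀ i ∈ N, 0 < M i) (W : ℝ → ℝ≥0)
    (hW : ∀ r, 0 < r → W r = (N.sup fun i => if act i ∧ r ≤ g i then M i else 0)⁻¹) :
    (∀ r, 0 < r → W r = 0) ∨ ∃ i ∈ N, act i ∧ 0 < g i ∧
      (∀ r, 0 < r → r ≤ g i → W r ≤ (M i)⁻¹) ∧ (∀ r, g i < r → W r = 0) := by
  classical
  by_cases hne : (N.filter fun i => act i ∧ 0 < g i).Nonempty
  · right
    obtain ⟨i, hi, hmax⟩ := Finset.exists_max_image _ g hne
    rw [Finset.mem_filter] at hi
    refine ⟨i, hi.1, hi.2.1, hi.2.2, ?_, ?_⟩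
    · intro r hr hri
      rw [hW r hr]
      apply inv_anti₀ (hM i hi.1)
      calc M i = if act i ∧ r ≤ g i then M i else 0 := by rw [if_pos ⟨hi.2.1, hri⟩]
        _ ≤ _ := Finset.le_sup (f := fun i => if act i ∧ r ≤ g i then M i else 0) hi.1
    · intro r hr
      have hr0 : 0 < r := hi.2.2.trans hr
      rw [hW r hr0]
      have : (N.sup fun i => if act i ∧ r ≤ g i then M i else 0) = 0 := by
        rw [← bot_eq_zero, Finset.sup_eq_bot_iff]
        intro j hj
        rw [if_neg]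
        · rintro ⟨h1, h2⟩
          have := hmax j (by rw [Finset.mem_filter]; exact ⟨hj, h1, hr0.trans_le h2⟩)
          linarith
      rw [this, inv_zero]
  · left
    intro r hr
    rw [hW r hr]
    have : (N.sup fun i => if act i ∧ r ≤ g i then M i else 0) = 0 := by
      rw [← bot_eq_zero, Finset.sup_eq_bot_iff]
      intro j hj
      rw [if_neg]
      · rintro ⟨h1, h2⟩
        exact hne ⟨j, by rw [Finset.mem_filter]; exact ⟨hj, h1, hr.trans_le h2⟩⟩
    rw [this, inv_zero]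

theorem lint_bound {f : ℝ → ℝ≥0∞} {c : ℝ≥0∞} {B : ℝ}
    (h1 : ∀ r, 0 < r → r ≤ B → f r ≤ c) (h2 : ∀ r, B < r → 0 < r → f r = 0) :
    ∫⁻ r in Ioi (0:ℝ), f r ≤ c * ENNReal.ofReal B := by
  calc ∫⁻ r in Ioi (0:ℝ), f r ≤ ∫⁻ r in Ioi (0:ℝ), (Ioc 0 B).indicator (fun _ => c) r := by
        apply setLIntegral_mono' measurableSet_Ioi
        intro r hr
        by_cases hB : r ≤ B
        · rw [indicator_of_mem (show r ∈ Ioc 0 B from ⟨hr, hB⟩)]; exact h1 r hr hB
        · rw [h2 r (not_le.1 hB) hr]; exact zero_le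
    _ ≤ ∫⁻ r, (Ioc 0 B).indicator (fun _ => c) r := setLIntegral_le_lintegral _ _
    _ = c * ENNReal.ofReal B := by
        rw [lintegral_indicator measurableSet_Ioc, setLIntegral_const, Real.volume_Ioc, sub_zero]

theorem lint_id {B : ℝ} (hB : 0 ≤ B) :
    ∫⁻ r in Ioc (0:ℝ) B, ENNReal.ofReal r = ENNReal.ofReal (B ^ 2 / 2) := by
  rw [← ofReal_integral_eq_lintegral_ofReal]
  · rw [← intervalIntegral.integral_of_le hB, integral_id]; simp
  · exact (continuous_id.integrableOn_Icc (a := 0) (b := B)).mono_set Ioc_subset_Icc_self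
  · filter_upwards [ae_restrict_mem measurableSet_Ioc] with r hr using hr.1.le

theorem lint_bound_id {f : ℝ → ℝ≥0∞} {c : ℝ≥0∞} {B : ℝ} (hB : 0 ≤ B)
    (h1 : ∀ r, 0 < r → r ≤ B → f r ≤ c) (h2 : ∀ r, B < r → 0 < r → f r = 0) :
    ∫⁻ r in Ioi (0:ℝ), ENNReal.ofReal r * f r ≤ c * ENNReal.ofReal (B ^ 2 / 2) := by
  calc ∫⁻ r in Ioi (0:ℝ), ENNReal.ofReal r * f r
      ≤ ∫⁻ r in Ioi (0:ℝ), (Ioc 0 B).indicator (fun r => c * ENNReal.ofReal r) r := by
        apply setLIntegral_mono' measurableSet_Ioi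
        intro r hr
        by_cases hB : r ≤ B
        · rw [indicator_of_mem (show r ∈ Ioc 0 B from ⟨hr, hB⟩), mul_comm]
          gcongr; exact h1 r hr hB
        · rw [h2 r (not_le.1 hB) hr, mul_zero]; exact zero_le
    _ ≤ ∫⁻ r, (Ioc 0 B).indicator (fun r => c * ENNReal.ofReal r) r := setLIntegral_le_lintegral _ _
    _ = c * ENNReal.ofReal (B ^ 2 / 2) := by
        rw [lintegral_indicator measurableSet_Ioc, lintegral_const_mul _ ENNReal.measurable_ofReal,
          lint_id hB]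

namespace Cfg

variable {ι : Type*} (c : Cfg ι)

/-- the point `p` lies in square `i` -/
def mem (i : ι) (p : ℝ × ℝ) : Prop :=
  (-c.e i 2 ≤ p.1 ∧ p.1 ≤ 1 + c.e i 0) ∧ (-c.e i 3 ≤ p.2 ∧ p.2 ≤ 1 + c.e i 1)

noncomputable instance (i : ι) (p : ℝ × ℝ) : Decidable (c.mem i p) := Classical.dec _

/-- the weight function -/
noncomputable def W (p : ℝ × ℝ) : ℝ≥0 := (c.N.sup fun i => if c.mem i p then c.M i else 0)⁻¹

theorem measurable_W : Measurable c.W := by
  apply Measurable.inv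
  apply measurable_finset_sup
  intro i _
  apply Measurable.ite _ measurable_const measurable_const
  have e1 : {p : ℝ × ℝ | c.mem i p} =
      Icc (-c.e i 2) (1 + c.e i 0) ×ˢ Icc (-c.e i 3) (1 + c.e i 1) := by
    ext p; simp only [mem, mem_ofPred_eq, mem_prod, mem_Icc]
  rw [e1]
  exact measurableSet_Icc.prod measurableSet_Icc

theorem measurable_W' : Measurable (fun p => (c.W p : ℝ≥0∞)) := c.measurable_W.coe_nnreal_ennreal

theorem W_le_one (p : ℝ × ℝ) : c.W p ≤ 1 := by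
  unfold W
  by_cases h : ∃ i ∈ c.N, c.mem i p
  · obtain ⟨i, hi, hp⟩ := h
    apply inv_le_one_of_one_le₀
    calc (1:ℝ≥0) ≤ c.M i := c.hM1 i hi
      _ = if c.mem i p then c.M i else 0 := by rw [if_pos hp]
      _ ≤ _ := Finset.le_sup (f := fun i => if c.mem i p then c.M i else 0) hi
  · have : (c.N.sup fun i => if c.mem i p then c.M i else 0) = 0 := by
      rw [← bot_eq_zero, Finset.sup_eq_bot_iff]
      intro j hj
      rw [if_neg]
      · intro hm; exact h ⟨j, hj, hm⟩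
    rw [this, inv_zero]; exact zero_le

theorem e_le {i : ι} (hi : i ∈ c.N) (k : Fin 4) : c.e i k ≤ c.s i := by
  have h1 := c.hsum i hi k
  have h2 := c.hlt i hi (k + 2)
  linarith

/-- `a` units beyond the unit square in direction `k` and `b` units beyond it in direction `k+1`
(if `d`) or `k-1` (if not `d`) -/
def dirPt (k : Fin 4) (d : Bool) (a b : ℝ) : ℝ × ℝ :=
  match d, k with
  | true, 0 => (1 + a, 1 + b)
  | true, 1 => (-b, 1 + a)
  | true, 2 => (-a, -b)
  | true, 3 => (1 + b, -a)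
  | false, 0 => (1 + a, -b)
  | false, 1 => (1 + b, 1 + a)
  | false, 2 => (-a, 1 + b)
  | false, 3 => (-b, -a)

/-- the step `±1` -/
def step (d : Bool) : Fin 4 := if d then 1 else 3

theorem mem_dirPt {i : ι} (hi : i ∈ c.N) (k : Fin 4) (d : Bool) {a b : ℝ} (ha : 0 < a)
    (hb : 0 < b) : c.mem i (dirPt k d a b) ↔ a ≤ c.e i k ∧ b ≤ c.e i (k + step d) := by
  have h0 := c.hlt i hi 0
  have h1 := c.hlt i hi 1
  have h2 := c.hlt i hi 2
  have h3 := c.hlt i hi 3
  cases d <;> fin_cases k <;>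
  · simp only [dirPt, mem, step, Fin.reduceFinMk, Fin.zero_eta, Fin.mk_one, Fin.reduceAdd,
      if_true, if_false, Bool.false_eq_true, zero_add]
    constructor
    · rintro ⟨⟨_, _⟩, ⟨_, _⟩⟩
      constructor <;> linarith
    · rintro ⟨_, _⟩
      refine ⟨⟨?_, ?_⟩, ⟨?_, ?_⟩⟩ <;> linarith

/-- what a direction yields -/
structure Out (r σ X : ℝ) (P : ι → Prop) : Prop where
  r0 : 0 ≤ r
  rs : r ≤ σ
  X1 : 1 ≤ X
  X3 : σ ^ 3 ≤ X
  or : (r = 0 ∧ σ = 0 ∧ X = 1) ∨ ∃ i ∈ c.N, σ = c.s i ∧ X = c.M i ∧ P i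

theorem ray_out (k : Fin 4) (d : Bool) {t : ℝ} (ht : 0 < t) :
    ∃ r σ X : ℝ, c.Out r σ X (fun i => r ≤ c.e i k ∧ t * r ≤ c.e i (k + step d)) ∧
      ∫⁻ x in Ioi (0:ℝ), ENNReal.ofReal x * (c.W (dirPt k d x (t * x)) : ℝ≥0∞) ≤
        ENNReal.ofReal (r ^ 2 / X / 2) := by
  have hM : ∀ i ∈ c.N, 0 < c.M i := fun i hi => lt_of_lt_of_le one_pos (c.hM1 i hi)
  have hW : ∀ x : ℝ, 0 < x → c.W (dirPt k d x (t * x)) =
      (c.N.sup fun i => if True ∧ x ≤ min (c.e i k) (c.e i (k + step d) / t) then c.M i else 0)⁻¹ := by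
    intro x hx
    unfold W
    congr 1
    apply Finset.sup_congr rfl
    intro i hi
    have := c.mem_dirPt hi k d hx (mul_pos ht hx)
    have e : c.mem i (dirPt k d x (t * x)) ↔
        (True ∧ x ≤ min (c.e i k) (c.e i (k + step d) / t)) := by
      rw [this, true_and, le_min_iff, le_div_iff₀ ht, mul_comm t x]
    by_cases hm : c.mem i (dirPt k d x (t * x))
    · rw [if_pos hm, if_pos (e.1 hm)]
    · rw [if_neg hm, if_neg (fun h => hm (e.2 h))]
  rcases ray_dichotomy c.N (fun _ => True) (fun i => min (c.e i k) (c.e i (k + step d) / t)) c.M hM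
    (fun x => c.W (dirPt k d x (t * x))) hW with h | ⟨i, hi, -, hg, h1, h2⟩
  · refine ⟨0, 0, 1, ⟨le_rfl, le_rfl, le_rfl, by norm_num, Or.inl ⟨rfl, rfl, rfl⟩⟩, ?_⟩
    have : ∫⁻ x in Ioi (0:ℝ), ENNReal.ofReal x * (c.W (dirPt k d x (t * x)) : ℝ≥0∞) = 0 := by
      rw [setLIntegral_congr_fun (g := fun _ => 0) measurableSet_Ioi]
      · simp
      · intro x hx; simp [h x hx]
    rw [this]; exact zero_le
  · set g := min (c.e i k) (c.e i (k + step d) / t) with hgdef
    have hg1 : g ≤ c.e i k := min_le_left _ _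
    have hg2 : t * g ≤ c.e i (k + step d) := by
      have : g ≤ c.e i (k + step d) / t := min_le_right _ _
      rw [le_div_iff₀ ht] at this; linarith
    refine ⟨g, c.s i, c.M i, ⟨hg.le, hg1.trans (c.e_le hi k), by exact_mod_cast c.hM1 i hi,
      c.hM3 i hi, Or.inr ⟨i, hi, rfl, rfl, hg1, hg2⟩⟩, ?_⟩
    have hb := lint_bound_id (f := fun x => (c.W (dirPt k d x (t * x)) : ℝ≥0∞))
      (c := ((c.M i)⁻¹ : ℝ≥0)) hg.le (fun x hx hxg => by
        exact_mod_cast h1 x hx hxg) (fun x hx _ => by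
        have := h2 x hx
        simp [this])
    refine hb.trans (le_of_eq ?_)
    have hMi : (0:ℝ) < c.M i := by exact_mod_cast hM i hi
    rw [show (((c.M i)⁻¹ : ℝ≥0) : ℝ≥0∞) = ENNReal.ofReal ((c.M i : ℝ)⁻¹) by
      rw [← NNReal.coe_inv, ENNReal.ofReal_coe_nnreal],
      ← ENNReal.ofReal_mul (by positivity)]
    congr 1
    field_simp

theorem pair_trivial {r σ X r' σ' X' : ℝ} {P P' : ι → Prop} (h : c.Out r σ X P)
    (h' : c.Out r' σ' X' P')
    (hreal : ∀ i ∈ c.N, ∀ j ∈ c.N, σ = c.s i → X = c.M i → P i → σ' = c.s j → X' = c.M j → P' j →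
      σ ^ 3 + σ' ^ 3 + 1 ≤ X + X') : σ ^ 3 + σ' ^ 3 + 1 ≤ X + X' := by
  rcases h.or with ⟨h1, h2, h3⟩ | ⟨i, hi, h1, h2, h3⟩
  · have := h'.X3
    rw [h2, h3]; linarith
  · rcases h'.or with ⟨k1, k2, k3⟩ | ⟨j, hj, k1, k2, k3⟩
    · have := h.X3
      rw [k2, k3]; linarith
    · exact hreal i hi j hj h1 h2 h3 k1 k2 k3

/-- the four rays of a pinwheel -/
theorem pin_out (d : Bool) {t : ℝ} (ht : 0 < t) :
    ∃ r σ X : Fin 4 → ℝ, Pin t r σ X ∧
      ∑ k : Fin 4, ∫⁻ x in Ioi (0:ℝ), ENNReal.ofReal x * (c.W (dirPt k d x (t * x)) : ℝ≥0∞) ≤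
        ENNReal.ofReal ((∑ k, r k ^ 2 / X k) / 2) := by
  choose r σ X hout hint using fun k => c.ray_out k d ht
  have hst : step d = 1 ∨ step d = 3 := by cases d <;> simp [step]
  set q := step d with hq
  refine ⟨fun i => r (q * i), fun i => σ (q * i), fun i => X (q * i), ?_, ?_⟩
  · refine ⟨fun i => (hout _).r0, fun i => (hout _).rs, fun i => (hout _).X1, fun i => (hout _).X3,
      ?_, ?_⟩
    · intro i hi
      have e1 : q * (i + 1) = q * i + q := by rw [mul_add, mul_one]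
      simp only [e1] at hi ⊢
      generalize q * i = k at hi ⊢
      refine c.pair_trivial (hout k) (hout (k + q)) ?_
      intro a ha b hb h1 h2 h3 k1 k2 k3
      rw [h1, h2, k1, k2]
      have e2 : k + q + q = k + 2 := by
        rcases hst with h | h <;> rw [h] <;> fin_cases k <;> rfl
      have e3 : k + 2 + 2 = k := by fin_cases k <;> rfl
      refine c.hpair a ha b hb ⟨k + 2, ?_⟩
      have s1 := c.hsum a ha k
      have s2 := c.hsum b hb (k + 2)
      rw [e2] at k3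
      rw [e3] at s2 ⊢
      rw [h1, k1] at hi
      have := h3.1
      have := k3.2
      linarith
    · intro i hi
      have e1 : q * (i + 2) = q * i + 2 := by
        rcases hst with h | h <;> rw [h] <;> fin_cases i <;> rfl
      simp only [e1] at hi ⊢
      generalize q * i = k at hi ⊢
      refine c.pair_trivial (hout k) (hout (k + 2)) ?_
      intro a ha b hb h1 h2 h3 k1 k2 k3
      rw [h1, h2, k1, k2]
      have e3 : k + 2 + 2 = k := by fin_cases k <;> rfl
      refine c.hpair a ha b hb ⟨k + 2, ?_⟩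
      have s1 := c.hsum a ha k
      have s2 := c.hsum b hb (k + 2)
      rw [e3] at s2 ⊢
      rw [h1, k1] at hi
      have := h3.1
      have := k3.1
      linarith
  · have hperm : ∑ k : Fin 4, r (q * k) ^ 2 / X (q * k) = ∑ k, r k ^ 2 / X k := by
      rw [Fin.sum_univ_four, Fin.sum_univ_four]
      rcases hst with h | h <;> rw [h] <;> simp
      · ring
    rw [hperm]
    calc ∑ k : Fin 4, ∫⁻ x in Ioi (0:ℝ), ENNReal.ofReal x * (c.W (dirPt k d x (t * x)) : ℝ≥0∞)
        ≤ ∑ k : Fin 4, ENNReal.ofReal (r k ^ 2 / X k / 2) := Finset.sum_le_sum fun k _ => hint k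
      _ = ENNReal.ofReal (∑ k : Fin 4, r k ^ 2 / X k / 2) := by
          rw [ENNReal.ofReal_sum_of_nonneg]
          intro k _
          have := (hout k).X1
          positivity
      _ = _ := by rw [Finset.sum_div]

end Cfg

end Pool.Agent.Helper15.Rado
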