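import Pool.Agent.Helper15.Rado.Local

/-!
# Rado's problem on disjoint squares: the local estimate, conclusion
-/

open MeasureTheory Set
open scoped ENNReal NNReal

namespace Pool.Agent.Helper15.Rado

namespace Cfg

variable {ι : Type*} (c : Cfg ι)

/-- the point at distance `b` beyond the side number `k` of the unit square, at position `x` -/
def colPt (k : Fin 4) (x b : ℝ) : ℝ × ℝ :=
  match k with
  | 0 => (1 + b, x)
  | 1 => (x, 1 + b)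
  | 2 => (-b, x)
  | 3 => (x, -b)

/-- the position `x` is admissible for square `i` at side `k` -/
def act (k : Fin 4) (x : ℝ) (i : ι) : Prop :=
  match k with
  | 0 => -c.e i 3 ≤ x ∧ x ≤ 1 + c.e i 1
  | 1 => -c.e i 2 ≤ x ∧ x ≤ 1 + c.e i 0
  | 2 => -c.e i 3 ≤ x ∧ x ≤ 1 + c.e i 1
  | 3 => -c.e i 2 ≤ x ∧ x ≤ 1 + c.e i 0

noncomputable instance (k : Fin 4) (x : ℝ) : DecidablePred (c.act k x) := Classical.decPred _

theorem mem_colPt {i : ι} (hi : i ∈ c.N) (k : Fin 4) (x : ℝ) {b : ℝ} (hb : 0 < b) :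
    c.mem i (colPt k x b) ↔ c.act k x i ∧ b ≤ c.e i k := by
  have h0 := c.hlt i hi 0
  have h1 := c.hlt i hi 1
  have h2 := c.hlt i hi 2
  have h3 := c.hlt i hi 3
  fin_cases k <;>
  · simp only [colPt, mem, act, Fin.reduceFinMk, Fin.zero_eta, Fin.mk_one]
    constructor
    · rintro ⟨⟨_, _⟩, ⟨_, _⟩⟩
      refine ⟨⟨?_, ?_⟩, ?_⟩ <;> linarith
    · rintro ⟨⟨_, _⟩, _⟩
      refine ⟨⟨?_, ?_⟩, ⟨?_, ?_⟩⟩ <;> linarith

theorem side_out (k : Fin 4) (x : ℝ) :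
    ∃ B σ X : ℝ, c.Out B σ X (fun i => B ≤ c.e i k) ∧
      ∫⁻ b in Ioi (0:ℝ), (c.W (colPt k x b) : ℝ≥0∞) ≤ ENNReal.ofReal (B / X) := by
  have hM : ∀ i ∈ c.N, 0 < c.M i := fun i hi => lt_of_lt_of_le one_pos (c.hM1 i hi)
  have hW : ∀ b : ℝ, 0 < b → c.W (colPt k x b) =
      (c.N.sup fun i => if c.act k x i ∧ b ≤ c.e i k then c.M i else 0)⁻¹ := by
    intro b hb
    unfold W
    congr 1
    apply Finset.sup_congr rfl
    intro i hi
    have e := c.mem_colPt hi k x hb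
    by_cases hm : c.mem i (colPt k x b)
    · rw [if_pos hm, if_pos (e.1 hm)]
    · rw [if_neg hm, if_neg (fun h => hm (e.2 h))]
  rcases ray_dichotomy c.N (c.act k x) (fun i => c.e i k) c.M hM
    (fun b => c.W (colPt k x b)) hW with h | ⟨i, hi, -, hg, h1, h2⟩
  · refine ⟨0, 0, 1, ⟨le_rfl, le_rfl, le_rfl, by norm_num, Or.inl ⟨rfl, rfl, rfl⟩⟩, ?_⟩
    have : ∫⁻ b in Ioi (0:ℝ), (c.W (colPt k x b) : ℝ≥0∞) = 0 := by
      rw [setLIntegral_congr_fun (g := fun _ => 0) measurableSet_Ioi]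
      · simp
      · intro b hb; simp [h b hb]
    rw [this]; exact zero_le
  · refine ⟨c.e i k, c.s i, c.M i, ⟨hg.le, c.e_le hi k, by exact_mod_cast c.hM1 i hi,
      c.hM3 i hi, Or.inr ⟨i, hi, rfl, rfl, le_rfl⟩⟩, ?_⟩
    have hb := lint_bound (f := fun b => (c.W (colPt k x b) : ℝ≥0∞))
      (c := ((c.M i)⁻¹ : ℝ≥0)) (B := c.e i k) (fun b hb hbg => by
        exact_mod_cast h1 b hb hbg) (fun b hb _ => by
        have := h2 b hb
        simp [this])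
    refine hb.trans (le_of_eq ?_)
    have hMi : (0:ℝ) < c.M i := by exact_mod_cast hM i hi
    rw [show (((c.M i)⁻¹ : ℝ≥0) : ℝ≥0∞) = ENNReal.ofReal ((c.M i : ℝ)⁻¹) by
      rw [← NNReal.coe_inv, ENNReal.ofReal_coe_nnreal],
      ← ENNReal.ofReal_mul (by positivity)]
    congr 1
    field_simp

theorem side_pair (k : Fin 4) (x : ℝ) :
    (∫⁻ b in Ioi (0:ℝ), (c.W (colPt k x b) : ℝ≥0∞)) +
      ∫⁻ b in Ioi (0:ℝ), (c.W (colPt (k + 2) x b) : ℝ≥0∞) ≤ ENNReal.ofReal (3 * kap) := by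
  obtain ⟨B, σ, X, h, hi⟩ := c.side_out k x
  obtain ⟨B', σ', X', h', hi'⟩ := c.side_out (k + 2) x
  have key : B / X + B' / X' ≤ 3 * kap := by
    apply side_ineq h.r0 h'.r0 h.rs h'.rs h.X1 h.X3 h'.X1 h'.X3
    intro hc
    refine c.pair_trivial h h' ?_
    intro a ha b hb h1 h2 h3 k1 k2 k3
    rw [h1, h2, k1, k2]
    have e3 : k + 2 + 2 = k := by fin_cases k <;> rfl
    refine c.hpair a ha b hb ⟨k + 2, ?_⟩
    have s1 := c.hsum a ha k
    have s2 := c.hsum b hb (k + 2)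
    rw [e3] at s2 ⊢
    rw [h1, k1] at hc
    linarith
  have p1 : 0 ≤ B / X := div_nonneg h.r0 (by linarith [h.X1])
  have p2 : 0 ≤ B' / X' := div_nonneg h'.r0 (by linarith [h'.X1])
  calc _ ≤ ENNReal.ofReal (B / X) + ENNReal.ofReal (B' / X') := add_le_add hi hi'
    _ = ENNReal.ofReal (B / X + B' / X') := (ENNReal.ofReal_add p1 p2).symm
    _ ≤ _ := ENNReal.ofReal_le_ofReal key

/-- the integral along the ray of slope `t` in direction `k, d` -/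
noncomputable def J (k : Fin 4) (d : Bool) (t : ℝ) : ℝ≥0∞ :=
  ∫⁻ x in Ioi (0:ℝ), ENNReal.ofReal x * (c.W (dirPt k d x (t * x)) : ℝ≥0∞)

theorem measurable_J (k : Fin 4) (d : Bool) : Measurable (c.J k d) := by
  have hm : Measurable (fun p : ℝ × ℝ => dirPt k d p.2 (p.1 * p.2)) := by
    cases d <;> fin_cases k <;> simp only [dirPt] <;>
      fun_prop
  have : Measurable (fun p : ℝ × ℝ => ENNReal.ofReal p.2 *
      (c.W (dirPt k d p.2 (p.1 * p.2)) : ℝ≥0∞)) :=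
    (ENNReal.measurable_ofReal.comp measurable_snd).mul (c.measurable_W'.comp hm)
  exact this.lintegral_prod_right'

theorem sum_J_le (d : Bool) {t : ℝ} (ht : 0 < t) :
    ∑ k, c.J k d t ≤ ENNReal.ofReal ((2 + 2 * kap) / 2) ∧
    (3/10 ≤ t → ∑ k, c.J k d t ≤ ENNReal.ofReal (2865 / 1000 / 2)) ∧
    (1/2 ≤ t → ∑ k, c.J k d t ≤ ENNReal.ofReal (8 / 3 / 2)) := by
  obtain ⟨r, σ, X, hp, h⟩ := c.pin_out d ht
  refine ⟨h.trans ?_, fun h3 => h.trans ?_, fun h3 => h.trans ?_⟩ <;> apply ENNReal.ofReal_le_ofReal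
  · linarith [hp.zero]
  · linarith [(hp.mono h3).three]
  · linarith [(hp.mono h3).half]

theorem corner_le (d : Bool) :
    ∑ k, ∫⁻ t in Ioo (0:ℝ) 1, c.J k d t ≤
      ENNReal.ofReal ((2 + 2 * kap) / 2 * (3/10) + 2865 / 1000 / 2 * (1/5) + 8 / 3 / 2 * (1/2)) := by
  rw [← lintegral_finsetSum _ (fun k _ => c.measurable_J k d)]
  have hsub : Ioo (0:ℝ) 1 ⊆ Ioo 0 (3/10) ∪ (Ico (3/10) (1/2) ∪ Ico (1/2) 1) := by
    intro t ht
    rcases lt_or_ge t (3/10) with h | h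
    · exact Or.inl ⟨ht.1, h⟩
    · rcases lt_or_ge t (1/2) with h' | h'
      · exact Or.inr (Or.inl ⟨h, h'⟩)
      · exact Or.inr (Or.inr ⟨h', ht.2⟩)
  have kp := kap_pos
  have b1 : ∫⁻ t in Ioo (0:ℝ) (3/10), ∑ k, c.J k d t ≤
      ENNReal.ofReal ((2 + 2 * kap) / 2 * (3/10)) := by
    calc ∫⁻ t in Ioo (0:ℝ) (3/10), ∑ k, c.J k d t
        ≤ ∫⁻ _ in Ioo (0:ℝ) (3/10), ENNReal.ofReal ((2 + 2 * kap) / 2) :=
          setLIntegral_mono' measurableSet_Ioo fun t ht => (c.sum_J_le d ht.1).1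
      _ = _ := by
          rw [setLIntegral_const, Real.volume_Ioo, ← ENNReal.ofReal_mul (by positivity), sub_zero]
  have b2 : ∫⁻ t in Ico (3/10:ℝ) (1/2), ∑ k, c.J k d t ≤
      ENNReal.ofReal (2865 / 1000 / 2 * (1/5)) := by
    calc ∫⁻ t in Ico (3/10:ℝ) (1/2), ∑ k, c.J k d t
        ≤ ∫⁻ _ in Ico (3/10:ℝ) (1/2), ENNReal.ofReal (2865 / 1000 / 2) :=
          setLIntegral_mono' measurableSet_Ico fun t ht =>
            (c.sum_J_le d (by linarith [ht.1])).2.1 ht.1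
      _ = _ := by
          rw [setLIntegral_const, Real.volume_Ico, ← ENNReal.ofReal_mul (by positivity)]
          norm_num
  have b3 : ∫⁻ t in Ico (1/2:ℝ) 1, ∑ k, c.J k d t ≤ ENNReal.ofReal (8 / 3 / 2 * (1/2)) := by
    calc ∫⁻ t in Ico (1/2:ℝ) 1, ∑ k, c.J k d t
        ≤ ∫⁻ _ in Ico (1/2:ℝ) 1, ENNReal.ofReal (8 / 3 / 2) :=
          setLIntegral_mono' measurableSet_Ico fun t ht =>
            (c.sum_J_le d (by linarith [ht.1])).2.2 ht.1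
      _ = _ := by
          rw [setLIntegral_const, Real.volume_Ico, ← ENNReal.ofReal_mul (by positivity)]
          norm_num
  calc ∫⁻ t in Ioo (0:ℝ) 1, ∑ k, c.J k d t
      ≤ ∫⁻ t in Ioo (0:ℝ) (3/10) ∪ (Ico (3/10) (1/2) ∪ Ico (1/2) 1), ∑ k, c.J k d t :=
        lintegral_mono_set hsub
    _ ≤ (∫⁻ t in Ioo (0:ℝ) (3/10), ∑ k, c.J k d t) +
        ((∫⁻ t in Ico (3/10:ℝ) (1/2), ∑ k, c.J k d t) +
          ∫⁻ t in Ico (1/2:ℝ) 1, ∑ k, c.J k d t) :=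
        (lintegral_union_le _ _ _).trans (add_le_add le_rfl (lintegral_union_le _ _ _))
    _ ≤ ENNReal.ofReal ((2 + 2 * kap) / 2 * (3/10)) +
        (ENNReal.ofReal (2865 / 1000 / 2 * (1/5)) + ENNReal.ofReal (8 / 3 / 2 * (1/2))) := by
        gcongr
    _ = _ := by
        rw [← ENNReal.ofReal_add (by norm_num) (by norm_num),
          ← ENNReal.ofReal_add (by positivity) (by norm_num)]
        congr 1
        ring

/-- the local estimate -/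
theorem integral_le : ∫⁻ p, (c.W p : ℝ≥0∞) ≤ 7 := by
  rw [plane_split c.measurable_W']
  have hc : ∫⁻ x in Icc (0:ℝ) 1, ∫⁻ y in Icc (0:ℝ) 1, (c.W (x, y) : ℝ≥0∞) ≤ 1 := by
    calc ∫⁻ x in Icc (0:ℝ) 1, ∫⁻ y in Icc (0:ℝ) 1, (c.W (x, y) : ℝ≥0∞)
        ≤ ∫⁻ _ in Icc (0:ℝ) 1, ∫⁻ _ in Icc (0:ℝ) 1, (1:ℝ≥0∞) := by
          gcongr; exact_mod_cast c.W_le_one _
      _ = 1 := by simp
  have hud : ∫⁻ x in Icc (0:ℝ) 1, ((∫⁻ b in Ioi (0:ℝ), (c.W (x, 1 + b) : ℝ≥0∞)) +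
      ∫⁻ b in Ioi (0:ℝ), (c.W (x, -b) : ℝ≥0∞)) ≤ ENNReal.ofReal (3 * kap) := by
    calc _ ≤ ∫⁻ _ in Icc (0:ℝ) 1, ENNReal.ofReal (3 * kap) := by
          apply lintegral_mono
          intro x
          exact c.side_pair 1 x
      _ = _ := by simp
  have hlr : ∫⁻ y in Icc (0:ℝ) 1, ((∫⁻ a in Ioi (0:ℝ), (c.W (1 + a, y) : ℝ≥0∞)) +
      ∫⁻ a in Ioi (0:ℝ), (c.W (-a, y) : ℝ≥0∞)) ≤ ENNReal.ofReal (3 * kap) := by
    calc _ ≤ ∫⁻ _ in Icc (0:ℝ) 1, ENNReal.ofReal (3 * kap) := by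
          apply lintegral_mono
          intro x
          exact c.side_pair 0 x
      _ = _ := by simp
  have n1 : Measurable (fun p : ℝ × ℝ => ((1:ℝ) + p.1, (1:ℝ) + p.2)) := by fun_prop
  have n2 : Measurable (fun p : ℝ × ℝ => ((1:ℝ) + p.1, -p.2)) := by fun_prop
  have n3 : Measurable (fun p : ℝ × ℝ => (-p.1, (1:ℝ) + p.2)) := by fun_prop
  have n4 : Measurable (fun p : ℝ × ℝ => (-p.1, -p.2)) := by fun_prop
  have q1 := quad_split (F := fun p => (c.W (1 + p.1, 1 + p.2) : ℝ≥0∞)) (c.measurable_W'.comp n1)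
  have q2 := quad_split (F := fun p => (c.W (1 + p.1, -p.2) : ℝ≥0∞)) (c.measurable_W'.comp n2)
  have q3 := quad_split (F := fun p => (c.W (-p.1, 1 + p.2) : ℝ≥0∞)) (c.measurable_W'.comp n3)
  have q4 := quad_split (F := fun p => (c.W (-p.1, -p.2) : ℝ≥0∞)) (c.measurable_W'.comp n4)
  simp only at q1 q2 q3 q4
  rw [q1, q2, q3, q4]
  have ht := c.corner_le true
  have hf := c.corner_le false
  rw [Fin.sum_univ_four] at ht hf
  have J0t : ∀ t, c.J 0 true t = ∫⁻ r in Ioi (0:ℝ), ENNReal.ofReal r * (c.W (1 + r, 1 + t * r) : ℝ≥0∞) :=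
    fun t => rfl
  have J1t : ∀ t, c.J 1 true t = ∫⁻ r in Ioi (0:ℝ), ENNReal.ofReal r * (c.W (-(t * r), 1 + r) : ℝ≥0∞) :=
    fun t => rfl
  have J2t : ∀ t, c.J 2 true t = ∫⁻ r in Ioi (0:ℝ), ENNReal.ofReal r * (c.W (-r, -(t * r)) : ℝ≥0∞) :=
    fun t => rfl
  have J3t : ∀ t, c.J 3 true t = ∫⁻ r in Ioi (0:ℝ), ENNReal.ofReal r * (c.W (1 + t * r, -r) : ℝ≥0∞) :=
    fun t => rfl
  have J0f : ∀ t, c.J 0 false t = ∫⁻ r in Ioi (0:ℝ), ENNReal.ofReal r * (c.W (1 + r, -(t * r)) : ℝ≥0∞) :=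
    fun t => rfl
  have J1f : ∀ t, c.J 1 false t = ∫⁻ r in Ioi (0:ℝ), ENNReal.ofReal r * (c.W (1 + t * r, 1 + r) : ℝ≥0∞) :=
    fun t => rfl
  have J2f : ∀ t, c.J 2 false t = ∫⁻ r in Ioi (0:ℝ), ENNReal.ofReal r * (c.W (-r, 1 + t * r) : ℝ≥0∞) :=
    fun t => rfl
  have J3f : ∀ t, c.J 3 false t = ∫⁻ r in Ioi (0:ℝ), ENNReal.ofReal r * (c.W (-(t * r), -r) : ℝ≥0∞) :=
    fun t => rfl
  simp only [J0t, J1t, J2t, J3t, J0f, J1f, J2f, J3f] at ht hf
  have kp := kap_pos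
  set C := ENNReal.ofReal ((2 + 2 * kap) / 2 * (3/10) + 2865 / 1000 / 2 * (1/5) + 8 / 3 / 2 * (1/2))
    with hC
  calc _ ≤ 1 + ENNReal.ofReal (3 * kap) + ENNReal.ofReal (3 * kap) + (C + C) := by
        refine add_le_add (add_le_add (add_le_add hc hud) hlr) ?_
        refine le_trans (le_of_eq ?_) (add_le_add ht hf)
        ring
    _ = ENNReal.ofReal (1 + 3 * kap + 3 * kap + (((2 + 2 * kap) / 2 * (3/10) +
          2865 / 1000 / 2 * (1/5) + 8 / 3 / 2 * (1/2)) + ((2 + 2 * kap) / 2 * (3/10) +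
          2865 / 1000 / 2 * (1/5) + 8 / 3 / 2 * (1/2)))) := by
        rw [ENNReal.ofReal_add (by positivity) (by positivity),
          ENNReal.ofReal_add (by positivity) (by positivity),
          ENNReal.ofReal_add (by positivity) (by positivity),
          ENNReal.ofReal_add (p := (2 + 2 * kap) / 2 * (3/10) + 2865 / 1000 / 2 * (1/5) +
            8 / 3 / 2 * (1/2)) (by positivity) (by positivity), ENNReal.ofReal_one, ← hC]
    _ ≤ ENNReal.ofReal 7 := by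
        apply ENNReal.ofReal_le_ofReal
        unfold kap; norm_num
    _ = 7 := by norm_num

end Cfg

end Pool.Agent.Helper15.Rado
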