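import Pool.Agent.Helper15.Rado.Ineq

/-!
# Rado's problem on disjoint squares: the pinwheel inequalities
-/

namespace Pool.Agent.Helper15.Rado

theorem kap_pos : (0:ℝ) < kap := by unfold kap; norm_num

theorem ratio_le_one {r σ X : ℝ} (hr : 0 ≤ r) (hrs : r ≤ σ) (hX : 1 ≤ X) (hX3 : σ ^ 3 ≤ X) :
    r ^ 2 / X ≤ 1 := by
  have hσ : 0 ≤ σ := hr.trans hrs
  rw [div_le_one (by linarith)]
  nlinarith [sq_le_cube hσ, mul_self_le_mul_self hr hrs]

theorem cert_le {r σ X r' σ' Y : ℝ} (hr : 0 ≤ r) (hrs : r ≤ σ) (hX : 1 ≤ X) (hX3 : σ ^ 3 ≤ X)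
    (hr' : 0 ≤ r') (hrs' : r' ≤ σ') (hY : 1 ≤ Y) (hY3 : σ' ^ 3 ≤ Y)
    (hp : σ ^ 3 + σ' ^ 3 + 1 ≤ X + Y) (ha : 2/3 < r ^ 2 / X) :
    r' ^ 2 / Y ≤ kap + (2 - 3 * kap) * (1 - r ^ 2 / X) := by
  have hX0 : 0 < X := by linarith
  have hY0 : 0 < Y := by linarith
  have hσ : 0 ≤ σ := hr.trans hrs
  have hσ' : 0 ≤ σ' := hr'.trans hrs'
  set a := r ^ 2 / X with hadef
  have haX : r ^ 2 = a * X := by rw [hadef]; field_simp
  have ha1 : a ≤ 1 := ratio_le_one hr hrs hX hX3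
  have h1 := sq_le_cube hσ
  have h2 : r ^ 2 ≤ σ ^ 2 := by nlinarith [mul_self_le_mul_self hr hrs]
  have h3 : r' ^ 2 ≤ σ' ^ 2 := by nlinarith [mul_self_le_mul_self hr' hrs']
  -- phi = X - σ^3
  have hphi : X - σ ^ 3 ≤ 3/2 * (1 - a) := by
    nlinarith [mul_nonneg (by linarith : (0:ℝ) ≤ 3 * a - 2) (by linarith : (0:ℝ) ≤ X - 1)]
  have hphi2 : X - σ ^ 3 < 1/2 := by
    nlinarith [mul_pos (by linarith : (0:ℝ) < 3 * a - 2) hX0]
  rw [div_le_iff₀ hY0]
  have hg : (0:ℝ) < 2 - 3 * kap := by unfold kap; norm_num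
  have e1 := sq_le_cube hσ'
  have e2 := sq_le hσ'
  have hP : 0 ≤ σ' ^ 3 := by positivity
  rcases le_or_gt 1 (Y - σ' ^ 3) with hc | hc
  · have : kap * (σ' ^ 3 + 1) ≤ kap * Y := by
      apply mul_le_mul_of_nonneg_left _ kap_pos.le; linarith
    have : 0 ≤ (2 - 3 * kap) * (1 - a) * Y := by
      apply mul_nonneg (mul_nonneg hg.le (by linarith)) hY0.le
    nlinarith
  · set l := 2 * (1 - (Y - σ' ^ 3)) with hl
    have hl0 : 0 ≤ l := by rw [hl]; linarith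
    have hl1 : l ≤ 1 := by rw [hl]; linarith
    have hYe : Y = σ' ^ 3 + 1 - l / 2 := by rw [hl]; ring
    have hla : l ≤ 3 * (1 - a) := by rw [hl]; linarith
    have key : σ' ^ 2 ≤ (kap + (2/3 - kap) * l) * Y := by
      rw [hYe]
      have k1 : (0:ℝ) ≤ 2/3 - kap := by unfold kap; norm_num
      nlinarith [mul_nonneg (sub_nonneg.2 hl1) (sub_nonneg.2 e2), mul_nonneg hl0 (sub_nonneg.2 e1),
        mul_nonneg (mul_nonneg hl0 (sub_nonneg.2 hl1)) k1]
    have : (kap + (2/3 - kap) * l) * Y ≤ (kap + (2 - 3 * kap) * (1 - a)) * Y := by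
      apply mul_le_mul_of_nonneg_right _ hY0.le
      have k1 : (0:ℝ) ≤ 2/3 - kap := by unfold kap; norm_num
      nlinarith [mul_le_mul_of_nonneg_left hla k1]
    linarith

/-- if the slack is at least `θ ≤ 1/3` -/
theorem slack_sq {θ r σ X : ℝ} (hθ0 : 0 ≤ θ) (hθ : θ ≤ 1/3) (hr : 0 ≤ r) (hX : 1 ≤ X)
    (hX3 : σ ^ 3 ≤ X) (h : r ≤ σ - θ) : r ^ 2 ≤ (1 - θ) ^ 2 * X := by
  have h2 : r ^ 2 ≤ (σ - θ) ^ 2 := by nlinarith [mul_self_le_mul_self hr h]
  have hp : 0 ≤ (1 - θ) ^ 2 := by positivity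
  rcases le_total σ 1 with hs | hs
  · have : (σ - θ) ^ 2 ≤ (1 - θ) ^ 2 := by
      have h0 : 0 ≤ σ - θ := hr.trans h
      nlinarith [mul_self_le_mul_self h0 (by linarith : σ - θ ≤ 1 - θ)]
    nlinarith [mul_le_mul_of_nonneg_left hX hp]
  · have h0 : 0 ≤ σ - θ := by linarith
    have h1 : σ - θ ≤ (1 - θ) * ((3 * σ - 1) / 2) := by
      nlinarith [mul_nonneg (sub_nonneg.2 hs) (by linarith : (0:ℝ) ≤ 1 - 3 * θ)]
    have h3 : (σ - θ) ^ 2 ≤ ((1 - θ) * ((3 * σ - 1) / 2)) ^ 2 := by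
      nlinarith [mul_self_le_mul_self h0 h1]
    have h4 : ((3 * σ - 1) / 2) ^ 2 ≤ σ ^ 3 := by
      nlinarith [mul_nonneg (sq_nonneg (σ - 1)) (by linarith : (0:ℝ) ≤ 4 * σ - 1)]
    calc r ^ 2 ≤ ((1 - θ) * ((3 * σ - 1) / 2)) ^ 2 := h2.trans h3
      _ = (1 - θ) ^ 2 * ((3 * σ - 1) / 2) ^ 2 := by ring
      _ ≤ (1 - θ) ^ 2 * X := by
        apply mul_le_mul_of_nonneg_left _ hp; exact h4.trans hX3

theorem diag_fail {r σ X r' σ' Y : ℝ} (hr : 0 ≤ r) (hrs : r ≤ σ) (hX : 1 ≤ X) (hX3 : σ ^ 3 ≤ X)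
    (hr' : 0 ≤ r') (hrs' : r' ≤ σ') (hY : 1 ≤ Y) (hY3 : σ' ^ 3 ≤ Y)
    (hf : 1 < (σ - r) + (σ' - r')) (ha : 2/3 < r ^ 2 / X) :
    r' ^ 2 / Y ≤ kap + (2 - 3 * kap) * (1 - r ^ 2 / X) := by
  have hX0 : 0 < X := by linarith
  have hY0 : 0 < Y := by linarith
  have ha1 := ratio_le_one hr hrs hX hX3
  have hslack : σ - r < 1/5 := by
    by_contra hcon
    have := slack_sq (θ := 1/5) (by norm_num) (by norm_num) hr hX hX3 (by linarith)
    rw [lt_div_iff₀ hX0] at ha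
    nlinarith
  have := slack_sq (θ := 1/3) (by norm_num) (by norm_num) hr' hY hY3 (by linarith)
  have h2 : r' ^ 2 / Y ≤ kap := by
    rw [div_le_iff₀ hY0]
    have : ((1:ℝ) - 1/3) ^ 2 ≤ kap := by unfold kap; norm_num
    nlinarith
  have hg : (0:ℝ) < 2 - 3 * kap := by unfold kap; norm_num
  nlinarith [mul_nonneg hg.le (sub_nonneg.2 ha1)]

/-- first step for failing adjacent pairs -/
theorem adj_step {τ r' σ' Y : ℝ} (hτ0 : 0 ≤ τ) (hτ : τ ≤ 2/3) (hr' : 0 ≤ r') (hrs' : r' ≤ σ')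
    (hY : 1 ≤ Y) (hY3 : σ' ^ 3 ≤ Y) : r' ^ 2 / Y * (σ' - τ * r') ≤ 1 - τ := by
  have hY0 : 0 < Y := by linarith
  have hσ' : 0 ≤ σ' := hr'.trans hrs'
  have h1 : r' ^ 2 * (σ' - τ * r') ≤ (1 - τ) * Y := by
    rcases le_total σ' 1 with hs | hs
    · have hr1 : r' ≤ 1 := hrs'.trans hs
      have a1 : r' ^ 2 * (σ' - τ * r') ≤ r' ^ 2 * (1 - τ * r') := by
        apply mul_le_mul_of_nonneg_left _ (sq_nonneg _); linarith
      have a2 : r' ^ 2 * (1 - τ * r') ≤ 1 - τ := by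
        have : 0 ≤ (1 - r') * ((1 - τ) * (1 + r' + r' ^ 2) - r' ^ 2) := by
          apply mul_nonneg (by linarith)
          nlinarith [mul_nonneg hr' (sub_nonneg.2 hr1), mul_nonneg (by linarith : (0:ℝ) ≤ 2/3 - τ) (by positivity : (0:ℝ) ≤ 1 + r' + r' ^ 2)]
        nlinarith
      nlinarith [mul_le_mul_of_nonneg_left hY (by linarith : (0:ℝ) ≤ 1 - τ)]
    · have a2 : r' ^ 2 * (σ' - τ * r') ≤ (1 - τ) * σ' ^ 3 := by
        have : 0 ≤ (σ' - r') * ((1 - τ) * (σ' ^ 2 + σ' * r' + r' ^ 2) - r' ^ 2) := by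
          apply mul_nonneg (by linarith)
          nlinarith [mul_nonneg hr' (sub_nonneg.2 hrs'), mul_self_le_mul_self hr' hrs',
            mul_nonneg (by linarith : (0:ℝ) ≤ 2/3 - τ) (by positivity : (0:ℝ) ≤ σ' ^ 2 + σ' * r' + r' ^ 2)]
        nlinarith
      nlinarith [mul_le_mul_of_nonneg_left hY3 (by linarith : (0:ℝ) ≤ 1 - τ)]
  rw [div_mul_eq_mul_div, div_le_iff₀ hY0]
  exact h1

theorem adj_fail {τ r σ X r' σ' Y : ℝ} (hτ0 : 0 ≤ τ) (hτ : τ ≤ 1/3)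
    (hr : 0 ≤ r) (hrs : r ≤ σ) (hX : 1 ≤ X) (hX3 : σ ^ 3 ≤ X)
    (hr' : 0 ≤ r') (hrs' : r' ≤ σ') (hY : 1 ≤ Y) (hY3 : σ' ^ 3 ≤ Y)
    (hf : 1 < (σ - r) + (σ' - τ * r')) :
    r ^ 2 / X * (r' ^ 2 / Y) ^ 2 ≤ (1 - τ) ^ 2 := by
  have hX0 : 0 < X := by linarith
  have hY0 : 0 < Y := by linarith
  have ha1 := ratio_le_one hr hrs hX hX3
  have hb1 := ratio_le_one hr' hrs' hY hY3
  have hs := adj_step hτ0 (by linarith) hr' hrs' hY hY3
  have hb0 : 0 ≤ r' ^ 2 / Y := by positivity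
  have ha0 : 0 ≤ r ^ 2 / X := by positivity
  set a := r ^ 2 / X with ha
  set b := r' ^ 2 / Y with hb
  have hbe : b * (1 - (σ - r)) ≤ 1 - τ := by
    refine le_trans (mul_le_mul_of_nonneg_left ?_ hb0) hs
    linarith
  rcases le_or_gt b (1 - τ) with hc | hc
  · have : b ^ 2 ≤ (1 - τ) ^ 2 := by nlinarith [mul_self_le_mul_self hb0 hc]
    nlinarith [sq_nonneg b]
  · have hbpos : 0 < b := by linarith
    have hT : (1 - τ) / b ≤ 1 := by rw [div_le_one hbpos]; exact hc.le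
    have hT2 : 2/3 ≤ (1 - τ) / b := by
      rw [le_div_iff₀ hbpos]; nlinarith
    have hle : 1 - (σ - r) ≤ (1 - τ) / b := by
      rw [le_div_iff₀ hbpos]; linarith
    have := slack_sq (θ := 1 - (1 - τ) / b) (by linarith) (by linarith) hr hX hX3 (by linarith)
    have h3 : r ^ 2 ≤ ((1 - τ) / b) ^ 2 * X := by
      have e : (1 - (1 - (1 - τ) / b)) = (1 - τ) / b := by ring
      rwa [e] at this
    have h4 : a ≤ ((1 - τ) / b) ^ 2 := by
      rw [ha, div_le_iff₀ hX0]; exact h3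
    calc a * b ^ 2 ≤ ((1 - τ) / b) ^ 2 * b ^ 2 := mul_le_mul_of_nonneg_right h4 (sq_nonneg _)
      _ = (1 - τ) ^ 2 := by field_simp

theorem adj_fail_half {r σ X r' σ' Y : ℝ}
    (hr : 0 ≤ r) (hrs : r ≤ σ) (hX : 1 ≤ X) (hX3 : σ ^ 3 ≤ X)
    (hr' : 0 ≤ r') (hrs' : r' ≤ σ') (hY : 1 ≤ Y) (hY3 : σ' ^ 3 ≤ Y)
    (hf : 1 < (σ - r) + (σ' - 1/2 * r')) :
    r ^ 2 / X * (r' ^ 2 / Y) ^ 2 ≤ 1/4 ∨ r ^ 2 / X ≤ 4/9 := by
  have hX0 : 0 < X := by linarith
  have hY0 : 0 < Y := by linarith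
  have ha1 := ratio_le_one hr hrs hX hX3
  have hb1 := ratio_le_one hr' hrs' hY hY3
  have hs := adj_step (τ := 1/2) (by norm_num) (by norm_num) hr' hrs' hY hY3
  have hb0 : 0 ≤ r' ^ 2 / Y := by positivity
  have ha0 : 0 ≤ r ^ 2 / X := by positivity
  set a := r ^ 2 / X with ha
  set b := r' ^ 2 / Y with hb
  have hbe : b * (1 - (σ - r)) ≤ 1/2 := by
    refine le_trans (mul_le_mul_of_nonneg_left ?_ hb0) (hs.trans (by norm_num))
    linarith
  rcases le_or_gt b (1/2) with hc | hc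
  · left
    have : b ^ 2 ≤ (1/2) ^ 2 := by nlinarith [mul_self_le_mul_self hb0 hc]
    nlinarith [sq_nonneg b]
  · have hbpos : 0 < b := by linarith
    have hT : (1/2) / b ≤ 1 := by rw [div_le_one hbpos]; exact hc.le
    have hle : 1 - (σ - r) ≤ (1/2) / b := by
      rw [le_div_iff₀ hbpos]; linarith
    rcases le_or_gt (2/3) ((1/2) / b) with hT2 | hT2
    · left
      have := slack_sq (θ := 1 - (1/2) / b) (by linarith) (by linarith) hr hX hX3 (by linarith)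
      have h3 : r ^ 2 ≤ ((1/2) / b) ^ 2 * X := by
        have e : (1 - (1 - (1/2) / b)) = (1/2) / b := by ring
        rwa [e] at this
      have h4 : a ≤ ((1/2) / b) ^ 2 := by
        rw [ha, div_le_iff₀ hX0]; exact h3
      calc a * b ^ 2 ≤ ((1/2) / b) ^ 2 * b ^ 2 := mul_le_mul_of_nonneg_right h4 (sq_nonneg _)
        _ = 1/4 := by field_simp; norm_num
    · right
      have := slack_sq (θ := 1/3) (by norm_num) (by norm_num) hr hX hX3 (by linarith)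
      rw [ha, div_le_iff₀ hX0]
      nlinarith

/-- the data of a pinwheel of four squares (some of which may be dummies `r = σ = 0`, `X = 1`) -/
structure Pin (τ : ℝ) (r σ X : Fin 4 → ℝ) : Prop where
  r0 : ∀ i, 0 ≤ r i
  rs : ∀ i, r i ≤ σ i
  X1 : ∀ i, 1 ≤ X i
  X3 : ∀ i, σ i ^ 3 ≤ X i
  adj : ∀ i, (σ i - r i) + (σ (i+1) - τ * r (i+1)) ≤ 1 →
    σ i ^ 3 + σ (i+1) ^ 3 + 1 ≤ X i + X (i+1)
  diag : ∀ i, (σ i - r i) + (σ (i+2) - r (i+2)) ≤ 1 →
    σ i ^ 3 + σ (i+2) ^ 3 + 1 ≤ X i + X (i+2)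

variable {τ τ' : ℝ} {r σ X : Fin 4 → ℝ}

theorem Pin.mono (h : Pin τ r σ X) (h' : τ' ≤ τ) : Pin τ' r σ X :=
  { h with
    adj := fun i hi => h.adj i (by
      have := mul_le_mul_of_nonneg_right h' (h.r0 (i+1)); linarith) }

theorem Pin.diag_le (h : Pin τ r σ X) (i : Fin 4) (ha : 2/3 < r i ^ 2 / X i) :
    r (i+2) ^ 2 / X (i+2) ≤ kap + (2 - 3 * kap) * (1 - r i ^ 2 / X i) := by
  rcases le_or_gt ((σ i - r i) + (σ (i+2) - r (i+2))) 1 with hc | hc
  · exact cert_le (h.r0 _) (h.rs _) (h.X1 _) (h.X3 _) (h.r0 _) (h.rs _) (h.X1 _) (h.X3 _)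
      (h.diag i hc) ha
  · exact diag_fail (h.r0 _) (h.rs _) (h.X1 _) (h.X3 _) (h.r0 _) (h.rs _) (h.X1 _) (h.X3 _)
      hc ha

theorem Pin.adj_le (h : Pin τ r σ X) (hτ0 : 0 ≤ τ) (hτ : τ ≤ 1/3) (i : Fin 4) :
    ((2/3 < r i ^ 2 / X i → r (i+1) ^ 2 / X (i+1) ≤ kap + (2 - 3 * kap) * (1 - r i ^ 2 / X i)) ∧
     (2/3 < r (i+1) ^ 2 / X (i+1) →
        r i ^ 2 / X i ≤ kap + (2 - 3 * kap) * (1 - r (i+1) ^ 2 / X (i+1)))) ∨
    r i ^ 2 / X i * (r (i+1) ^ 2 / X (i+1)) ^ 2 ≤ (1 - τ) ^ 2 := by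
  rcases le_or_gt ((σ i - r i) + (σ (i+1) - τ * r (i+1))) 1 with hc | hc
  · left
    have hp := h.adj i hc
    refine ⟨fun ha => cert_le (h.r0 _) (h.rs _) (h.X1 _) (h.X3 _) (h.r0 _) (h.rs _) (h.X1 _)
      (h.X3 _) hp ha, fun ha => cert_le (h.r0 _) (h.rs _) (h.X1 _) (h.X3 _) (h.r0 _) (h.rs _)
      (h.X1 _) (h.X3 _) (by linarith) ha⟩
  · right
    exact adj_fail hτ0 hτ (h.r0 _) (h.rs _) (h.X1 _) (h.X3 _) (h.r0 _) (h.rs _) (h.X1 _)
      (h.X3 _) hc

theorem Pin.adj_le_half (h : Pin (1/2) r σ X) (i : Fin 4) :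
    ((2/3 < r i ^ 2 / X i → r (i+1) ^ 2 / X (i+1) ≤ kap + (2 - 3 * kap) * (1 - r i ^ 2 / X i)) ∧
     (2/3 < r (i+1) ^ 2 / X (i+1) →
        r i ^ 2 / X i ≤ kap + (2 - 3 * kap) * (1 - r (i+1) ^ 2 / X (i+1)))) ∨
    (r i ^ 2 / X i * (r (i+1) ^ 2 / X (i+1)) ^ 2 ≤ 1/4 ∨ r i ^ 2 / X i ≤ 4/9) := by
  rcases le_or_gt ((σ i - r i) + (σ (i+1) - 1/2 * r (i+1))) 1 with hc | hc
  · left
    have hp := h.adj i hc
    refine ⟨fun ha => cert_le (h.r0 _) (h.rs _) (h.X1 _) (h.X3 _) (h.r0 _) (h.rs _) (h.X1 _)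
      (h.X3 _) hp ha, fun ha => cert_le (h.r0 _) (h.rs _) (h.X1 _) (h.X3 _) (h.r0 _) (h.rs _)
      (h.X1 _) (h.X3 _) (by linarith) ha⟩
  · right
    exact adj_fail_half (h.r0 _) (h.rs _) (h.X1 _) (h.X3 _) (h.r0 _) (h.rs _) (h.X1 _)
      (h.X3 _) hc

theorem sum_rot (a : Fin 4 → ℝ) (i : Fin 4) : ∑ j, a j = a i + a (i+1) + a (i+2) + a (i+3) := by
  rw [Fin.sum_univ_four]
  fin_cases i <;> simp <;> ring

theorem Pin.zero (h : Pin τ r σ X) : ∑ i, r i ^ 2 / X i ≤ 2 + 2 * kap := by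
  have key : ∀ i, r i ^ 2 / X i + r (i+2) ^ 2 / X (i+2) ≤ 1 + kap := by
    intro i
    have a1 := ratio_le_one (h.r0 i) (h.rs i) (h.X1 i) (h.X3 i)
    have a2 := ratio_le_one (h.r0 (i+2)) (h.rs (i+2)) (h.X1 (i+2)) (h.X3 (i+2))
    have d1 := h.diag_le i
    have d2 := h.diag_le (i+2)
    have e : i + 2 + 2 = i := by fin_cases i <;> rfl
    rw [e] at d2
    set a := r i ^ 2 / X i
    set b := r (i+2) ^ 2 / X (i+2)
    unfold kap at *
    rcases le_or_gt a (2/3) with h1 | h1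
    · rcases le_or_gt b (2/3) with h2 | h2
      · linarith
      · have := d2 h2; linarith
    · have := d1 h1; linarith
  rw [sum_rot _ 0]
  have k0 := key 0
  have k1 := key 1
  simp only [zero_add] at *
  have e : (1:Fin 4) + 2 = 3 := rfl
  rw [e] at k1
  linarith

/-- the case analysis for slope `3/10` -/
theorem real_three {M a b c : ℝ} (hM : 2/3 < M) (hM1 : M ≤ 1) (ha0 : 0 ≤ a) (hb0 : 0 ≤ b)
    (hc0 : 0 ≤ c) (haM : a ≤ M) (hcM : c ≤ M)
    (hb : b ≤ kap + (2 - 3 * kap) * (1 - M))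
    (h12 : a ≤ kap + (2 - 3 * kap) * (1 - M) ∨ M * a ^ 2 ≤ (1 - 3/10) ^ 2)
    (h41 : c ≤ kap + (2 - 3 * kap) * (1 - M) ∨ c * M ^ 2 ≤ (1 - 3/10) ^ 2)
    (hac : 2/3 < a → c ≤ kap + (2 - 3 * kap) * (1 - a))
    (hca : 2/3 < c → a ≤ kap + (2 - 3 * kap) * (1 - c)) :
    M + a + b + c ≤ 2865/1000 := by
  unfold kap at *
  rcases h12 with h12 | h12
  · rcases h41 with h41 | h41
    · linarith
    · have hc79 : c ≤ 79/100 := by
        by_contra hcon
        push Not at hcon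
        have : c ^ 3 ≤ c * M ^ 2 := by nlinarith [mul_self_le_mul_self hc0 hcM]
        nlinarith [mul_pos (by linarith : (0:ℝ) < c) (by linarith : (0:ℝ) < c - 79/100)]
      linarith
  · have ha79 : a ≤ 79/100 := by
      by_contra hcon
      push Not at hcon
      have : a ^ 3 ≤ M * a ^ 2 := by nlinarith [mul_le_mul_of_nonneg_right haM (sq_nonneg a)]
      nlinarith [mul_pos (by linarith : (0:ℝ) < a) (by linarith : (0:ℝ) < a - 79/100)]
    rcases h41 with h41 | h41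
    · linarith
    · have hc79 : c ≤ 79/100 := by
        by_contra hcon
        push Not at hcon
        have : c ^ 3 ≤ c * M ^ 2 := by nlinarith [mul_self_le_mul_self hc0 hcM]
        nlinarith [mul_pos (by linarith : (0:ℝ) < c) (by linarith : (0:ℝ) < c - 79/100)]
      rcases le_or_gt a (2/3) with h1 | h1
      · rcases le_or_gt c (2/3) with h2 | h2
        · linarith
        · have h3 := hca h2
          have hM88 : M ≤ 88/100 := by
            by_contra hcon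
            push Not at hcon
            nlinarith [mul_pos (by linarith : (0:ℝ) < c - 2/3) (by positivity : (0:ℝ) < M ^ 2)]
          linarith
      · have h3 := hac h1
        rcases le_or_gt (M + a) (167/100) with h4 | h4
        · linarith
        · have hM95 : 95/100 ≤ M := by
            by_contra hcon
            push Not at hcon
            have h5 : (167/100 - M) ^ 2 ≤ a ^ 2 := by
              have : 0 ≤ 167/100 - M := by linarith
              nlinarith [mul_self_le_mul_self this (by linarith : 167/100 - M ≤ a)]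
            have h6 : M * (167/100 - M) ^ 2 ≤ M * a ^ 2 :=
              mul_le_mul_of_nonneg_left h5 (by linarith)
            nlinarith [mul_pos (by linarith : (0:ℝ) < 95/100 - M) (by linarith : (0:ℝ) < M - 2/3)]
          have hsum : M + a ≤ 17/10 := by
            by_contra hcon
            push Not at hcon
            have h5 : (17/10 - M) ^ 2 ≤ a ^ 2 := by
              have : 0 ≤ 17/10 - M := by linarith
              nlinarith [mul_self_le_mul_self this (by linarith : 17/10 - M ≤ a)]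
            have h6 : M * (17/10 - M) ^ 2 ≤ M * a ^ 2 :=
              mul_le_mul_of_nonneg_left h5 (by linarith)
            nlinarith [mul_nonneg (by linarith : (0:ℝ) ≤ 1 - M) (by linarith : (0:ℝ) ≤ M - 95/100)]
          have hc54 : c ≤ 545/1000 := by
            by_contra hcon
            push Not at hcon
            nlinarith [mul_pos (by linarith : (0:ℝ) < c - 545/1000) (by positivity : (0:ℝ) < M ^ 2)]
          linarith

theorem real_half {M a b c : ℝ} (hM : 2/3 < M) (hM1 : M ≤ 1) (ha0 : 0 ≤ a) (hb0 : 0 ≤ b)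
    (hc0 : 0 ≤ c)
    (hb : b ≤ kap + (2 - 3 * kap) * (1 - M))
    (h12 : a ≤ kap + (2 - 3 * kap) * (1 - M) ∨ M * a ^ 2 ≤ 1/4)
    (h41 : c ≤ kap + (2 - 3 * kap) * (1 - M) ∨ (c * M ^ 2 ≤ 1/4 ∨ c ≤ 4/9)) :
    M + a + b + c ≤ 8/3 := by
  unfold kap at *
  have hc' : c ≤ (52914 / 100000) + (2 - 3 * (52914 / 100000)) * (1 - M) ∨ c ≤ 5625/10000 := by
    rcases h41 with h | h | h
    · exact Or.inl h
    · right
      by_contra hcon
      push Not at hcon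
      nlinarith [mul_pos (by linarith : (0:ℝ) < c - 5625/10000) (by positivity : (0:ℝ) < M ^ 2)]
    · right; linarith
  rcases h12 with h12 | h12
  · rcases hc' with h | h <;> linarith
  · have ha1 : a ≤ 6125/10000 := by
      by_contra hcon
      push Not at hcon
      nlinarith [mul_pos (by linarith : (0:ℝ) < a - 6125/10000) (by linarith : (0:ℝ) < a)]
    rcases le_or_gt M (9/10) with h9 | h9
    · rcases hc' with h | h <;> linarith
    · have ha2 : a ≤ 5275/10000 := by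
        by_contra hcon
        push Not at hcon
        nlinarith [mul_pos (by linarith : (0:ℝ) < a - 5275/10000) (by linarith : (0:ℝ) < a)]
      rcases hc' with h | h <;> linarith

theorem exists_max (a : Fin 4 → ℝ) : ∃ i, ∀ j, a j ≤ a i := by
  obtain ⟨i, hi⟩ := Finite.exists_max a
  exact ⟨i, hi⟩

theorem Pin.three (h : Pin (3/10) r σ X) : ∑ i, r i ^ 2 / X i ≤ 2865/1000 := by
  obtain ⟨i, hi⟩ := exists_max (fun i => r i ^ 2 / X i)
  rw [sum_rot _ i]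
  have pos : ∀ j, 0 ≤ r j ^ 2 / X j := fun j => by have := h.X1 j; positivity
  rcases le_or_gt (r i ^ 2 / X i) (2/3) with hM | hM
  · have := hi (i+1); have := hi (i+2); have := hi (i+3); linarith
  · have e2 : i + 1 + 2 = i + 3 := by fin_cases i <;> rfl
    have e3 : i + 3 + 2 = i + 1 := by fin_cases i <;> rfl
    have e4 : i + 3 + 1 = i := by fin_cases i <;> rfl
    have hac := h.diag_le (i+1)
    have hca := h.diag_le (i+3)
    rw [e2] at hac
    rw [e3] at hca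
    have h12 := h.adj_le (by norm_num) (by norm_num) i
    have h41 := h.adj_le (by norm_num) (by norm_num) (i+3)
    rw [e4] at h41
    refine real_three hM (ratio_le_one (h.r0 i) (h.rs i) (h.X1 i) (h.X3 i)) (pos _) (pos _) (pos _)
      (hi _) (hi _) (h.diag_le i hM) ?_ ?_ hac hca
    · rcases h12 with h12 | h12
      · exact Or.inl (h12.1 hM)
      · exact Or.inr h12
    · rcases h41 with h41 | h41
      · exact Or.inl (h41.2 hM)
      · exact Or.inr h41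

theorem Pin.half (h : Pin (1/2) r σ X) : ∑ i, r i ^ 2 / X i ≤ 8/3 := by
  obtain ⟨i, hi⟩ := exists_max (fun i => r i ^ 2 / X i)
  rw [sum_rot _ i]
  have pos : ∀ j, 0 ≤ r j ^ 2 / X j := fun j => by have := h.X1 j; positivity
  rcases le_or_gt (r i ^ 2 / X i) (2/3) with hM | hM
  · have := hi (i+1); have := hi (i+2); have := hi (i+3); linarith
  · have e4 : i + 3 + 1 = i := by fin_cases i <;> rfl
    have h12 := h.adj_le_half i
    have h41 := h.adj_le_half (i+3)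
    rw [e4] at h41
    refine real_half hM (ratio_le_one (h.r0 i) (h.rs i) (h.X1 i) (h.X3 i)) (pos _) (pos _) (pos _)
      (h.diag_le i hM) ?_ ?_
    · rcases h12 with h12 | h12 | h12
      · exact Or.inl (h12.1 hM)
      · exact Or.inr h12
      · exfalso; linarith
    · rcases h41 with h41 | h41
      · exact Or.inl (h41.2 hM)
      · exact Or.inr h41

end Pool.Agent.Helper15.Rado
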